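import Pool.Agent.H70.WX.Defs

/-!
# [H70 WX Forms] Words in which `x` and `z` occur at most once

The word is `y^a`, `y^a x y^b`, `y^a z y^b`, `y^a x y^b z y^c` or `y^a z y^b x y^c` (`0, 1, 2` are `x, y, z`).
Induction on `U`, or `List.append_of_mem` and `List.eq_replicate_iff`.
-/

set_option autoImplicit false

namespace Pool.Agent.H70.WE

private theorem rep_cons (a : ℕ) (L : List (Fin 3)) :
    1 :: (List.replicate a (1 : Fin 3) ++ L) = List.replicate (a + 1) 1 ++ L := rfl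

theorem forms (U : List (Fin 3)) (h0 : U.count 0 ≤ 1) (h2 : U.count 2 ≤ 1) :
    (∃ a, U = List.replicate a 1) ∨
    (∃ a b, U = List.replicate a 1 ++ 0 :: List.replicate b 1) ∨
    (∃ a b, U = List.replicate a 1 ++ 2 :: List.replicate b 1) ∨
    (∃ a b c, U = List.replicate a 1 ++ 0 :: (List.replicate b 1 ++ 2 :: List.replicate c 1)) ∨
    (∃ a b c, U = List.replicate a 1 ++ 2 :: (List.replicate b 1 ++ 0 :: List.replicate c 1)) := by
  induction U with
  | nil => exact Or.inl ⟨0, rfl⟩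
  | cons c U ih =>
    have hc : c = 0 ∨ c = 1 ∨ c = 2 := by
      fin_cases c <;> simp
    rcases hc with rfl | rfl | rfl
    · -- `x`
      rw [List.count_cons_self] at h0
      rw [List.count_cons_of_ne (by decide)] at h2
      have h0' : U.count 0 = 0 := by omega
      rcases ih (by omega) h2 with ⟨a, e⟩ | ⟨a, b, e⟩ | ⟨a, b, e⟩ | ⟨a, b, c, e⟩ | ⟨a, b, c, e⟩
      · exact Or.inr (Or.inl ⟨0, a, by rw [e]; rfl⟩)
      · exfalso
        rw [e] at h0'
        simp at h0'
      · exact Or.inr (Or.inr (Or.inr (Or.inl ⟨0, a, b, by rw [e]; rfl⟩)))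
      · exfalso
        rw [e] at h0'
        simp at h0'
      · exfalso
        rw [e] at h0'
        simp at h0'
    · -- `y`
      rw [List.count_cons_of_ne (by decide)] at h0 h2
      rcases ih h0 h2 with ⟨a, e⟩ | ⟨a, b, e⟩ | ⟨a, b, e⟩ | ⟨a, b, c, e⟩ | ⟨a, b, c, e⟩
      · exact Or.inl ⟨a + 1, by rw [e]; rfl⟩
      · exact Or.inr (Or.inl ⟨a + 1, b, by rw [e, rep_cons]⟩)
      · exact Or.inr (Or.inr (Or.inl ⟨a + 1, b, by rw [e, rep_cons]⟩))
      · exact Or.inr (Or.inr (Or.inr (Or.inl ⟨a + 1, b, c, by rw [e, rep_cons]⟩)))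
      · exact Or.inr (Or.inr (Or.inr (Or.inr ⟨a + 1, b, c, by rw [e, rep_cons]⟩)))
    · -- `z`
      rw [List.count_cons_self] at h2
      rw [List.count_cons_of_ne (by decide)] at h0
      have h2' : U.count 2 = 0 := by omega
      rcases ih h0 (by omega) with ⟨a, e⟩ | ⟨a, b, e⟩ | ⟨a, b, e⟩ | ⟨a, b, c, e⟩ | ⟨a, b, c, e⟩
      · exact Or.inr (Or.inr (Or.inl ⟨0, a, by rw [e]; rfl⟩))
      · exact Or.inr (Or.inr (Or.inr (Or.inr ⟨0, a, b, by rw [e]; rfl⟩)))
      · exfalso
        rw [e] at h2'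
        simp at h2'
      · exfalso
        rw [e] at h2'
        simp at h2'
      · exfalso
        rw [e] at h2'
        simp at h2'

end Pool.Agent.H70.WE
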