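import Pool.Agent.H70.WX.Defs

/-!
# [H70 WX Once] Equations in which some unknown occurs exactly once

Say `c` occurs once in `F.1` and not in `F.2` (the other case by `NPB.symm`): `F.1 = S ++ c :: T`, no `c` in `S, T, F.2`. Let `d, d'` be the other
unknowns. A non periodic solution `h`: `h d, h d'` do not commute (else they are powers of one word, `comm_pow`, and then `h c` also:
`mid_pow`; so `h` would be periodic). In the free group (`io : List α → FreeGroup α`, `io_append`, `io_inj` from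
`Pool.Agent.H93.TH.FG`, see Typ.lean) `io (h c) = io (h S)⁻¹ io (h F.2) io (h T)⁻¹`, so `io (h u) = Φ (ψ u)` for every unknown `u`, with
`Φ = FreeGroup.lift ![io (h d), io (h d')]` injective (`fg_inj`) and `ψ : Fin 3 → FreeGroup (Fin 2)` which depends only on `F`
(`d ↦ of 0`, `d' ↦ of 1`, `c ↦ (ψ S)⁻¹ (ψ F.2) (ψ T)⁻¹`). So `Solves h G ↔ ψ G.1 = ψ G.2` (products of `ψ`), the same for all non
periodic solutions `h` of `F`; in `NPB` use the witnesses `h 0` and `h 1` and the equation `E 0`.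
-/

set_option autoImplicit false

namespace Pool.Agent.H70.WE

open Pool.Agent.H93.TW

/-- the product of the values of the letters of a word -/
private def pv {G : Type} [Group G] (ψ : Fin 3 → G) (W : List (Fin 3)) : G := (W.map ψ).prod

private theorem val_cons {α : Type} (h : Fin 3 → List α) (c : Fin 3) (W : List (Fin 3)) :
    val h (c :: W) = h c ++ val h W := by
  unfold val
  rw [List.flatMap_cons]

private theorem pv_io {α : Type} (h : Fin 3 → List α) (ψ : Fin 3 → FreeGroup (Fin 2))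
    (Φ : FreeGroup (Fin 2) →* FreeGroup α) (W : List (Fin 3))
    (hW : ∀ u ∈ W, Φ (ψ u) = io (h u)) : Φ (pv ψ W) = io (val h W) := by
  induction W with
  | nil =>
    show Φ 1 = 1
    exact map_one Φ
  | cons c W ih =>
    rw [val_cons, io_append, ← ih (fun u hu => hW u (List.mem_cons_of_mem _ hu)),
      ← hW c List.mem_cons_self, ← map_mul]
    congr 1

private theorem val_pow_of {α : Type} (h : Fin 3 → List α) (ρ : List α) {a b : ℕ}
    (h1 : h 1 = pow ρ a) (h2 : h 2 = pow ρ b) (W : List (Fin 3)) (hW : (0 : Fin 3) ∉ W) :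
    ∃ n, val h W = pow ρ n := by
  induction W with
  | nil => exact ⟨0, rfl⟩
  | cons c W ih =>
    obtain ⟨n, hn⟩ := ih (fun hm => hW (List.mem_cons_of_mem _ hm))
    have hc : c ≠ 0 := fun h0 => hW (by rw [h0]; exact List.mem_cons_self)
    have hc2 : c = 1 ∨ c = 2 := by
      revert hc
      fin_cases c <;> simp
    rw [val_cons, hn]
    rcases hc2 with rfl | rfl
    · exact ⟨a + n, by rw [h1, pow_add']⟩
    · exact ⟨b + n, by rw [h2, pow_add']⟩

private theorem key (S T R : List (Fin 3)) (hS : (0 : Fin 3) ∉ S) (hT : (0 : Fin 3) ∉ T)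
    (hR : (0 : Fin 3) ∉ R) : ∃ ψ : Fin 3 → FreeGroup (Fin 2),
    ∀ (α : Type) (h : Fin 3 → List α), ¬ Per h → Solves h (S ++ 0 :: T, R) →
      ∀ G : List (Fin 3) × List (Fin 3), Solves h G ↔ pv ψ G.1 = pv ψ G.2 := by
  obtain ⟨φ, hφ⟩ : ∃ φ : Fin 3 → FreeGroup (Fin 2),
      φ = ![1, FreeGroup.of 0, FreeGroup.of 1] := ⟨_, rfl⟩
  obtain ⟨ψ, hψ⟩ : ∃ ψ : Fin 3 → FreeGroup (Fin 2),
      ψ = ![(pv φ S)⁻¹ * pv φ R * (pv φ T)⁻¹, FreeGroup.of 0, FreeGroup.of 1] := ⟨_, rfl⟩
  refine ⟨ψ, ?_⟩
  intro α h hper hsol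
  have hsol' : val h S ++ h 0 ++ val h T = val h R := by
    have h1 : val h (S ++ 0 :: T) = val h R := hsol
    rw [val_append, val_cons, ← List.append_assoc] at h1
    exact h1
  -- the two other values do not commute
  have hnc : io (h 1) * io (h 2) ≠ io (h 2) * io (h 1) := by
    intro he
    rw [← io_append, ← io_append] at he
    obtain ⟨ρ, a, b, ha, hb⟩ := comm_pow _ _ (io_inj he)
    change h 1 = pow ρ a at ha
    change h 2 = pow ρ b at hb
    obtain ⟨s, hs⟩ := val_pow_of h ρ ha hb S hS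
    obtain ⟨t, ht⟩ := val_pow_of h ρ ha hb T hT
    obtain ⟨r, hr⟩ := val_pow_of h ρ ha hb R hR
    rw [hs, ht, hr] at hsol'
    obtain ⟨n, hn⟩ := mid_pow hsol'
    apply hper
    refine ⟨ρ, fun c => ?_⟩
    fin_cases c
    · exact ⟨n, hn⟩
    · exact ⟨a, ha⟩
    · exact ⟨b, hb⟩
  have hinj := fg_inj _ _ hnc
  obtain ⟨Φ, hΦ⟩ : ∃ Φ : FreeGroup (Fin 2) →* FreeGroup α,
      Φ = FreeGroup.lift ![io (h 1), io (h 2)] := ⟨_, rfl⟩
  rw [← hΦ] at hinj
  have f0 : Φ (FreeGroup.of 0) = io (h 1) := by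
    rw [hΦ, FreeGroup.lift_apply_of]
    rfl
  have f1 : Φ (FreeGroup.of 1) = io (h 2) := by
    rw [hΦ, FreeGroup.lift_apply_of]
    rfl
  have hlow : ∀ W : List (Fin 3), (0 : Fin 3) ∉ W → Φ (pv φ W) = io (val h W) := by
    intro W hW
    apply pv_io
    intro u hu
    have hc : u ≠ 0 := fun h0 => hW (by rw [← h0]; exact hu)
    have hc2 : u = 1 ∨ u = 2 := by
      revert hc
      fin_cases u <;> simp
    rcases hc2 with rfl | rfl
    · rw [hφ]
      exact f0
    · rw [hφ]
      exact f1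
  have hall : ∀ u, Φ (ψ u) = io (h u) := by
    intro u
    have hc2 : u = 0 ∨ u = 1 ∨ u = 2 := by
      fin_cases u <;> simp
    rcases hc2 with rfl | rfl | rfl
    · rw [hψ]
      show Φ ((pv φ S)⁻¹ * pv φ R * (pv φ T)⁻¹) = io (h 0)
      rw [map_mul, map_mul, map_inv, map_inv, hlow S hS, hlow T hT, hlow R hR, ← hsol',
        io_append, io_append]
      group
    · rw [hψ]
      exact f0
    · rw [hψ]
      exact f1
  intro G
  have hv : ∀ W, Φ (pv ψ W) = io (val h W) := fun W => pv_io h ψ Φ W (fun u _ => hall u)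
  constructor
  · intro hG
    apply hinj
    rw [hv, hv]
    exact congrArg io hG
  · intro hG
    apply io_inj
    rw [← hv, ← hv, hG]

private theorem npb_zero (F : List (Fin 3) × List (Fin 3)) (h1 : F.1.count 0 = 1)
    (h2 : F.2.count 0 = 0) : NPB F := by
  obtain ⟨L, R⟩ := F
  simp only at h1 h2
  have hmem : (0 : Fin 3) ∈ L := List.count_pos_iff.1 (by omega)
  obtain ⟨S, T, hST⟩ := List.append_of_mem hmem
  rw [hST, List.count_append, List.count_cons_self] at h1
  have hS : (0 : Fin 3) ∉ S := List.count_eq_zero.1 (by omega)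
  have hT : (0 : Fin 3) ∉ T := List.count_eq_zero.1 (by omega)
  have hR : (0 : Fin 3) ∉ R := List.count_eq_zero.1 h2
  obtain ⟨ψ, hψ⟩ := key S T R hS hT hR
  rw [hST]
  intro α E h hp hs hch hn
  apply hn 0
  rw [hψ α (h 0) (hp 0) (hs 0) (E 0), ← hψ α (h 1) (hp 1) (hs 1) (E 0)]
  exact hch 1 0 (by decide)

private theorem npb_side (F : List (Fin 3) × List (Fin 3)) (c : Fin 3) (h1 : F.1.count c = 1)
    (h2 : F.2.count c = 0) : NPB F := by
  obtain ⟨σ, hσ⟩ : ∃ σ : Equiv.Perm (Fin 3), σ = Equiv.swap 0 c := ⟨_, rfl⟩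
  have hc : σ c = 0 := by rw [hσ, Equiv.swap_apply_right]
  have hinv : ∀ u, σ (σ u) = u := by
    intro u
    rw [hσ]
    exact congrArg (fun e : Fin 3 ≃ Fin 3 => e u) (Equiv.swap_swap 0 c)
  have h3 : NPB (ren σ F) := by
    apply npb_zero
    · show (F.1.map σ).count 0 = 1
      rw [← hc, List.count_map_of_injective _ _ σ.injective]
      exact h1
    · show (F.2.map σ).count 0 = 0
      rw [← hc, List.count_map_of_injective _ _ σ.injective]
      exact h2
  have h4 := h3.ren σ
  have h5 : ren σ (ren σ F) = F := by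
    unfold ren
    simp only [List.map_map]
    have h6 : (⇑σ ∘ ⇑σ) = id := by
      funext u
      exact hinv u
    rw [h6, List.map_id, List.map_id]
  rwa [h5] at h4

theorem npb_once (F : List (Fin 3) × List (Fin 3)) (c : Fin 3) (hc : F.1.count c + F.2.count c = 1) :
    NPB F := by
  rcases Nat.eq_zero_or_pos (F.2.count c) with h | h
  · exact npb_side F c (by omega) h
  · have h1 : NPB (F.2, F.1) := npb_side (F.2, F.1) c (by show F.2.count c = 1; omega)
      (by show F.1.count c = 0; omega)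
    exact h1.symm

end Pool.Agent.H70.WE
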