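import Pool.Agent.H70.WX.Defs

/-!
# [H70 WX Same] Same order: `y^a x y^b z y^c = y^d x y^e z y^f`

If `a + b + c ≠ d + e + f` (lengths): `y = []`. Otherwise, `a ≠ d`, `c = f`: cancel on the right, `y^a x y^b = y^d x y^e`, `x y = y x`. `a = d`, `c ≠ f`:
`z y = y z` (mirror). Both different: after cancelling, and up to exchanging the sides,
`x y^b z = y^d x y^e z y^f` (`d, f ≥ 1`, `b = d + e + f`): `y x` and `x y` are prefixes of one word: `x` is a prefix of `y^N` for large `N`
(iterate: `x` is a prefix of `y^d x`), so is `x y` (`|x y| ≤ |y^d x|`, and `y^d x` is a prefix of the right side, `x y` of the left one), and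
`y x`; so `x y = y x`. Or `x y^b z y^c = y^d x y^e z` (`c, d ≥ 1`, `b + c = d + e`): if `b ≥ 1`: `x y = y x` as before; if `e ≥ 1`:
`z y = y z` (mirror image); if `b = e = 0`: `c = d`, `(x z) y^c = y^c (x z)`, so `(x z) y = y (x z)`.
(Two words with commuting powers commute: `comm_pow` on `u` and `y^c`, or compare prefixes.)
The conclusion is uniform in the words (the case depends on the exponents only), so keep the three `∀`.
-/

set_option autoImplicit false

namespace Pool.Agent.H70.WE

private theorem pow_one' {α : Type} (y : List α) : pow y 1 = y := by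
  unfold pow
  simp

private theorem same_iter {α : Type} (d : ℕ) (x y : List α) (h : x <+: pow y d ++ x) (k : ℕ) :
    x <+: pow y (d * k) ++ x := by
  induction k with
  | zero => exact List.prefix_refl x
  | succ k ih =>
    have h1 : pow y (d * (k + 1)) ++ x = pow y (d * k) ++ (pow y d ++ x) := by
      rw [Nat.mul_succ, pow_add', List.append_assoc]
    rw [h1]
    exact ih.trans ((List.prefix_append_right_inj _).2 h)

/-- `x y` a prefix of `y^d x`, `d ≥ 1`: `x y = y x` -/
private theorem same_pre {α : Type} (d : ℕ) (hd : 1 ≤ d) (x y : List α) (h : x ++ y <+: pow y d ++ x) :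
    x ++ y = y ++ x := by
  by_cases hy : y = []
  · simp [hy]
  have hy1 : 1 ≤ y.length := List.length_pos_iff.mpr hy
  have h1 : x <+: pow y d ++ x := (List.prefix_append x y).trans h
  have h2 := same_iter d x y h1 x.length
  have hlen : x.length ≤ (pow y (d * x.length)).length := by
    rw [pow_length]
    calc x.length = 1 * x.length * 1 := by ring
      _ ≤ d * x.length * y.length := Nat.mul_le_mul (Nat.mul_le_mul_right _ hd) hy1
  have h3 : x <+: pow y (d * x.length) :=
    List.prefix_of_prefix_length_le h2 (List.prefix_append _ _) hlen
  have h4 : x ++ y <+: pow y (d + d * x.length) := by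
    rw [pow_add']
    exact h.trans ((List.prefix_append_right_inj _).2 h3)
  have h5 : y ++ x <+: pow y (d + d * x.length) := by
    have h6 : d + d * x.length = 1 + d * x.length + (d - 1) := by omega
    rw [h6, pow_add', pow_add', pow_one']
    exact ((List.prefix_append_right_inj _).2 h3).trans (List.prefix_append _ _)
  have hl : (x ++ y).length = (y ++ x).length := by
    rw [List.length_append, List.length_append, Nat.add_comm]
  exact (List.prefix_of_prefix_length_le h4 h5 hl.le).eq_of_length hl

/-- `x y^b r1 = y^d x r2`, `b, d ≥ 1`: `x y = y x` -/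
private theorem same_left {α : Type} (b d : ℕ) (hb : 1 ≤ b) (hd : 1 ≤ d) (x y r1 r2 : List α)
    (h : x ++ (pow y b ++ r1) = pow y d ++ (x ++ r2)) : x ++ y = y ++ x := by
  refine same_pre d hd x y ?_
  have h1 : x ++ y <+: x ++ (pow y b ++ r1) := by
    refine (List.prefix_append_right_inj _).2 ?_
    have h2 : b = 1 + (b - 1) := by omega
    rw [h2, pow_add', pow_one', List.append_assoc]
    exact List.prefix_append _ _
  have h3 : pow y d ++ x <+: x ++ (pow y b ++ r1) := by
    rw [h, ← List.append_assoc]
    exact List.prefix_append _ _
  refine List.prefix_of_prefix_length_le h1 h3 ?_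
  rw [List.length_append, List.length_append, pow_length]
  have : 1 * y.length ≤ d * y.length := Nat.mul_le_mul_right _ hd
  omega

/-- `r1 z y^c = r2 y^e z`, `c, e ≥ 1`: `z y = y z` -/
private theorem same_right {α : Type} (c e : ℕ) (hc : 1 ≤ c) (he : 1 ≤ e) (z y r1 r2 : List α)
    (h : r1 ++ z ++ pow y c = r2 ++ pow y e ++ z) : z ++ y = y ++ z := by
  have h1 := congrArg List.reverse h
  rw [List.reverse_append, List.reverse_append, List.reverse_append, List.reverse_append, pow_reverse,
    pow_reverse] at h1
  have h2 := same_left e c he hc z.reverse y.reverse r2.reverse r1.reverse h1.symm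
  have h3 := congrArg List.reverse h2
  rw [List.reverse_append, List.reverse_append, List.reverse_reverse, List.reverse_reverse] at h3
  exact h3.symm

private theorem len_nil {α : Type} {y : List α} {s t : ℕ} (hne : s ≠ t) (h : s * y.length = t * y.length) :
    y = [] := by
  rcases Nat.eq_zero_or_pos y.length with h0 | h0
  · exact List.length_eq_zero_iff.mp h0
  · exact absurd (Nat.eq_of_mul_eq_mul_right h0 h) hne

private theorem one_aux {α : Type} (a b c d : ℕ) (hac : a < c) (hs : a + b = c + d) (x y : List α)
    (h : pow y a ++ x ++ pow y b = pow y c ++ x ++ pow y d) : x ++ y = y ++ x := by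
  have h1 : c = a + (c - a) := by omega
  rw [h1, pow_add', List.append_assoc, List.append_assoc, List.append_assoc] at h
  have h2 := List.append_cancel_left h
  refine same_left b (c - a) (by omega) (by omega) x y [] (pow y d) ?_
  rw [List.append_nil]
  exact h2

/-- one unknown: `y^a x y^b = y^c x y^d` -/
theorem one_unknown {α : Type} (a b c d : ℕ) (hne : ¬ (a = c ∧ b = d)) (x y : List α)
    (h : pow y a ++ x ++ pow y b = pow y c ++ x ++ pow y d) : x ++ y = y ++ x := by
  by_cases hs : a + b = c + d
  · rcases lt_trichotomy a c with hac | hac | hac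
    · exact one_aux a b c d hac hs x y h
    · exact absurd ⟨hac, by omega⟩ hne
    · exact one_aux c d a b hac hs.symm x y h.symm
  · have hl := congrArg List.length h
    simp only [List.length_append, pow_length] at hl
    have hy : y = [] := by
      refine len_nil (s := a + b) (t := c + d) hs ?_
      rw [Nat.add_mul, Nat.add_mul]
      omega
    simp [hy]

private theorem same_order_lt (a b c d e f : ℕ) (had : a < d) (hs : a + b + c = d + e + f) (hcf : c ≠ f) :
    (∀ (α : Type) (x y z : List α),
      pow y a ++ x ++ pow y b ++ z ++ pow y c = pow y d ++ x ++ pow y e ++ z ++ pow y f → x ++ y = y ++ x) ∨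
    (∀ (α : Type) (x y z : List α),
      pow y a ++ x ++ pow y b ++ z ++ pow y c = pow y d ++ x ++ pow y e ++ z ++ pow y f → z ++ y = y ++ z) ∨
    (∀ (α : Type) (x y z : List α),
      pow y a ++ x ++ pow y b ++ z ++ pow y c = pow y d ++ x ++ pow y e ++ z ++ pow y f →
        (x ++ z) ++ y = y ++ (x ++ z)) := by
  by_cases hb : 1 ≤ b
  · left
    intro α x y z h
    have h1 : d = a + (d - a) := by omega
    rw [h1, pow_add'] at h
    simp only [List.append_assoc] at h
    have h2 := List.append_cancel_left h
    exact same_left b (d - a) hb (by omega) x y _ _ h2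
  · -- `b = 0`, so `c > f`
    have hcf' : f < c := by omega
    by_cases he : 1 ≤ e
    · right; left
      intro α x y z h
      have h1 : c = (c - f) + f := by omega
      rw [h1, pow_add', ← List.append_assoc] at h
      have h2 := List.append_cancel_right h
      exact same_right (c - f) e (by omega) he z y _ _ h2
    · right; right
      intro α x y z h
      have hb0 : b = 0 := by omega
      have he0 : e = 0 := by omega
      have h1 : c = (c - f) + f := by omega
      rw [h1, pow_add', ← List.append_assoc] at h
      have h2 := List.append_cancel_right h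
      have h3 : d = a + (d - a) := by omega
      rw [h3, pow_add', hb0, he0, pow_zero', List.append_nil, List.append_nil] at h2
      simp only [List.append_assoc] at h2
      have h4 := List.append_cancel_left h2
      have h5 : c - f = d - a := by omega
      rw [h5] at h4
      refine same_left (d - a) (d - a) (by omega) (by omega) (x ++ z) y [] [] ?_
      simp only [List.append_assoc, List.append_nil]
      exact h4

theorem same_order (a b c d e f : ℕ) (hne : ¬ (a = d ∧ b = e ∧ c = f)) :
    (∀ (α : Type) (x y z : List α),
      pow y a ++ x ++ pow y b ++ z ++ pow y c = pow y d ++ x ++ pow y e ++ z ++ pow y f → x ++ y = y ++ x) ∨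
    (∀ (α : Type) (x y z : List α),
      pow y a ++ x ++ pow y b ++ z ++ pow y c = pow y d ++ x ++ pow y e ++ z ++ pow y f → z ++ y = y ++ z) ∨
    (∀ (α : Type) (x y z : List α),
      pow y a ++ x ++ pow y b ++ z ++ pow y c = pow y d ++ x ++ pow y e ++ z ++ pow y f →
        (x ++ z) ++ y = y ++ (x ++ z)) := by
  by_cases hs : a + b + c = d + e + f
  · by_cases had : a = d
    · right; left
      intro α x y z h
      subst had
      have h' : (pow y a ++ x) ++ (pow y b ++ z ++ pow y c) = (pow y a ++ x) ++ (pow y e ++ z ++ pow y f) := by
        simpa only [List.append_assoc] using h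
      exact one_unknown b c e f (by rintro ⟨h1, h2⟩; exact hne ⟨rfl, h1, h2⟩) z y (List.append_cancel_left h')
    · by_cases hcf : c = f
      · left
        intro α x y z h
        subst hcf
        have h1 := List.append_cancel_right (List.append_cancel_right h)
        exact one_unknown a b d e (by rintro ⟨h1, h2⟩; exact had h1) x y h1
      · rcases lt_or_gt_of_ne had with h1 | h1
        · exact same_order_lt a b c d e f h1 hs hcf
        · rcases same_order_lt d e f a b c h1 hs.symm (fun h => hcf h.symm) with h2 | h2 | h2
          · exact Or.inl fun α x y z h => h2 α x y z h.symm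
          · exact Or.inr (Or.inl fun α x y z h => h2 α x y z h.symm)
          · exact Or.inr (Or.inr fun α x y z h => h2 α x y z h.symm)
  · left
    intro α x y z h
    have hl := congrArg List.length h
    simp only [List.length_append, pow_length] at hl
    have hy : y = [] := by
      refine len_nil (s := a + b + c) (t := d + e + f) hs ?_
      rw [Nat.add_mul, Nat.add_mul, Nat.add_mul, Nat.add_mul]
      omega
    simp [hy]

end Pool.Agent.H70.WE
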