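import Pool.Agent.H70.WX.Defs

/-!
# [H70 WX Swap] Exchanged order: `y^a x y^b z y^c = y^d z y^e x y^f`

If `a + b + c ≠ d + e + f`: `y = []`, first alternative. Otherwise put `a' = a - d, d' = d - a, c' = c - f, f' = f - c` (truncated), cancel the
common powers: `y^a' x y^b z y^c' = y^d' z y^e x y^f'`. If `a' + c' ≤ e` (iff `d' + f' ≤ b`): with `s = e - a' - c'`, multiply by `y^s` on the left:
`P Q = Q P` for `P = y^(a'+s) x y^f'`, `Q = y^(d'+s) z y^c'` (`b = f' + d' + s`, `e = c' + a' + s`): second alternative. Otherwise
(`e < a' + c'`) exactly one of `a', c'` is positive (both positive: `d' = f' = 0`, `e = a' + b + c'`), and if `a' > 0` then `d' = c' = 0`,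
`f' = b + (a' - e)`: third alternative, `D = a' - e ≥ 1`; if `c' > 0` then `a' = f' = 0`, `D = c' - e`, `d' = b + D`: fourth alternative.
-/

set_option autoImplicit false

namespace Pool.Agent.H70.WE

/-- the equation `y^a x y^b z y^c = y^d z y^e x y^f` -/
def SwapEq {α : Type} (a b c d e f : ℕ) (x y z : List α) : Prop :=
  pow y a ++ x ++ pow y b ++ z ++ pow y c = pow y d ++ z ++ pow y e ++ x ++ pow y f

private theorem canc_left {α : Type} (a b c d e f n : ℕ) (x y z : List α)
    (h : SwapEq (n + a) b c (n + d) e f x y z) : SwapEq a b c d e f x y z := by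
  unfold SwapEq at h ⊢
  rw [pow_add', pow_add' y n d] at h
  simp only [List.append_assoc] at h ⊢
  exact List.append_cancel_left h

private theorem canc_right {α : Type} (a b c d e f n : ℕ) (x y z : List α)
    (h : SwapEq a b (c + n) d e (f + n) x y z) : SwapEq a b c d e f x y z := by
  unfold SwapEq at h ⊢
  rw [pow_add', pow_add' y f n] at h
  simp only [← List.append_assoc] at h ⊢
  exact List.append_cancel_right h

private theorem canc {α : Type} (a b c d e f : ℕ) (x y z : List α)
    (h : SwapEq a b c d e f x y z) : SwapEq (a - d) b (c - f) (d - a) e (f - c) x y z := by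
  have h1 : SwapEq (min a d + (a - d)) b ((c - f) + min c f) (min a d + (d - a)) e
      ((f - c) + min c f) x y z := by
    rw [show min a d + (a - d) = a by omega, show (c - f) + min c f = c by omega,
      show min a d + (d - a) = d by omega, show (f - c) + min c f = f by omega]
    exact h
  exact canc_left _ _ _ _ _ _ _ x y z (canc_right _ _ _ _ _ _ _ x y z h1)

theorem swap_order (a b c d e f : ℕ) :
    (∀ (α : Type) (x y z : List α), SwapEq a b c d e f x y z → x ++ y = y ++ x) ∨
    (∃ m k p q : ℕ, ∀ (α : Type) (x y z : List α), SwapEq a b c d e f x y z →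
      (pow y m ++ x ++ pow y k) ++ (pow y p ++ z ++ pow y q) =
        (pow y p ++ z ++ pow y q) ++ (pow y m ++ x ++ pow y k)) ∨
    (∃ e' b' D : ℕ, 1 ≤ D ∧ ∀ (α : Type) (x y z : List α), SwapEq a b c d e f x y z →
      pow y (e' + D) ++ x ++ pow y b' ++ z = z ++ pow y e' ++ x ++ pow y (b' + D)) ∨
    (∃ e' b' D : ℕ, 1 ≤ D ∧ ∀ (α : Type) (x y z : List α), SwapEq a b c d e f x y z →
      x ++ pow y b' ++ z ++ pow y (e' + D) = pow y (b' + D) ++ z ++ pow y e' ++ x) := by
  by_cases hs : a + b + c = d + e + f
  swap
  · left
    intro α x y z h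
    have h1 := congrArg List.length h
    simp only [List.length_append, pow_length] at h1
    have h2 : (a + b + c) * y.length = (d + e + f) * y.length := by
      rw [Nat.add_mul, Nat.add_mul, Nat.add_mul, Nat.add_mul]
      omega
    have h3 : y.length = 0 := by
      by_contra h3
      exact hs (Nat.eq_of_mul_eq_mul_right (Nat.pos_of_ne_zero h3) h2)
    rw [List.eq_nil_of_length_eq_zero h3]
    simp
  · right
    obtain ⟨a', ha'⟩ : ∃ n, n = a - d := ⟨_, rfl⟩
    obtain ⟨d', hd'⟩ : ∃ n, n = d - a := ⟨_, rfl⟩
    obtain ⟨c', hc'⟩ : ∃ n, n = c - f := ⟨_, rfl⟩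
    obtain ⟨f', hf'⟩ : ∃ n, n = f - c := ⟨_, rfl⟩
    have key : ∀ (α : Type) (x y z : List α), SwapEq a b c d e f x y z →
        SwapEq a' b c' d' e f' x y z := by
      intro α x y z h
      rw [ha', hc', hd', hf']
      exact canc a b c d e f x y z h
    by_cases hA : a' + c' ≤ e
    · left
      obtain ⟨s, hsd⟩ : ∃ s, s = e - a' - c' := ⟨_, rfl⟩
      refine ⟨a' + s, f', d' + s, c', ?_⟩
      intro α x y z h
      have h1 := key α x y z h
      unfold SwapEq at h1
      rw [show b = f' + (d' + s) by omega, show e = c' + (a' + s) by omega] at h1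
      rw [pow_add' y f', pow_add' y c'] at h1
      rw [show pow y (a' + s) = pow y s ++ pow y a' by rw [Nat.add_comm, pow_add'],
        show pow y (d' + s) = pow y s ++ pow y d' by rw [Nat.add_comm, pow_add']] at h1 ⊢
      simp only [List.append_assoc] at h1 ⊢
      rw [h1]
    · right
      by_cases ha0 : a' = 0
      · right
        refine ⟨e, b, c' - e, by omega, ?_⟩
        intro α x y z h
        have h1 := key α x y z h
        unfold SwapEq at h1
        rw [show a' = 0 by omega, show f' = 0 by omega, pow_zero', show c' = e + (c' - e) by omega,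
          show d' = b + (c' - e) by omega] at h1
        simpa using h1
      · left
        refine ⟨e, b, a' - e, by omega, ?_⟩
        intro α x y z h
        have h1 := key α x y z h
        unfold SwapEq at h1
        rw [show c' = 0 by omega, show d' = 0 by omega, pow_zero', show f' = b + (a' - e) by omega,
          show pow y a' = pow y (e + (a' - e)) by rw [show e + (a' - e) = a' by omega]] at h1
        simpa using h1

end Pool.Agent.H70.WE
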