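import Pool.Agent.H70.WX.NpC
import Pool.Agent.H70.WX.Once
import Pool.Agent.H70.WX.Same
import Pool.Agent.H70.WX.Swap
import Pool.Agent.H70.WX.Forms

/-!
# [H70 WX Cls] Equations in which two unknowns occur at most once on each side
-/

set_option autoImplicit false

namespace Pool.Agent.H70.WE

variable {α : Type}

theorem npb_xz : NPB ([0, 2], [2, 0]) := npb_comm 0 0 0 0

theorem npb_xy : NPB ([0, 1], [1, 0]) := by
  have h := npb_xz.ren (Equiv.swap 1 2)
  have h2 : WE.ren (Equiv.swap 1 2) ([0, 2], [2, 0]) = ([0, 1], [1, 0]) := by decide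
  rwa [h2] at h

theorem npb_zy : NPB ([2, 1], [1, 2]) := by
  have h := npb_xy.ren (Equiv.swap 0 2)
  have h2 : WE.ren (Equiv.swap 0 2) ([0, 1], [1, 0]) = ([2, 1], [1, 2]) := by decide
  rwa [h2] at h

theorem npb_xz_y : NPB ([0, 2, 1], [1, 0, 2]) := by
  have h := (npb_comm 0 1 0 0).ren (Equiv.swap 1 2)
  have h2 : WE.ren (Equiv.swap 1 2) (pw 0 1 ++ qw 0 0, qw 0 0 ++ pw 0 1) = ([0, 2, 1], [1, 0, 2]) := by decide
  rwa [h2] at h

theorem npb_zx_y : NPB ([2, 0, 1], [1, 2, 0]) := by
  have h := npb_xz_y.ren (Equiv.swap 0 2)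
  have h2 : WE.ren (Equiv.swap 0 2) ([0, 2, 1], [1, 0, 2]) = ([2, 0, 1], [1, 2, 0]) := by decide
  rwa [h2] at h

theorem val_cons' (h : Fin 3 → List α) (c : Fin 3) (U : List (Fin 3)) : val h (c :: U) = h c ++ val h U := by
  unfold val
  rw [List.flatMap_cons]

theorem val_nil' (h : Fin 3 → List α) : val h [] = [] := rfl

/-- `y^a x y^b z y^c` -/
theorem val_xz (h : Fin 3 → List α) (a b c : ℕ) :
    val h (List.replicate a 1 ++ 0 :: (List.replicate b 1 ++ 2 :: List.replicate c 1)) =
      pow (h 1) a ++ h 0 ++ pow (h 1) b ++ h 2 ++ pow (h 1) c := by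
  simp only [val_append, val_cons', val_replicate, List.append_assoc]

theorem val_zx (h : Fin 3 → List α) (a b c : ℕ) :
    val h (List.replicate a 1 ++ 2 :: (List.replicate b 1 ++ 0 :: List.replicate c 1)) =
      pow (h 1) a ++ h 2 ++ pow (h 1) b ++ h 0 ++ pow (h 1) c := by
  simp only [val_append, val_cons', val_replicate, List.append_assoc]

theorem val_x (h : Fin 3 → List α) (a b : ℕ) :
    val h (List.replicate a 1 ++ 0 :: List.replicate b 1) = pow (h 1) a ++ h 0 ++ pow (h 1) b := by
  simp only [val_append, val_cons', val_replicate, List.append_assoc]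

theorem val_z (h : Fin 3 → List α) (a b : ℕ) :
    val h (List.replicate a 1 ++ 2 :: List.replicate b 1) = pow (h 1) a ++ h 2 ++ pow (h 1) b := by
  simp only [val_append, val_cons', val_replicate, List.append_assoc]

theorem npb_y (a b : ℕ) (hne : a ≠ b) : NPB (List.replicate a 1, List.replicate b 1) := by
  refine npb_xy.mono (fun α h hs => ?_)
  have h1 : val h (List.replicate a 1) = val h (List.replicate b 1) := hs
  rw [val_replicate, val_replicate] at h1
  have h2 := congrArg List.length h1
  rw [pow_length, pow_length] at h2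
  have h3 : h 1 = [] := by
    apply List.eq_nil_of_length_eq_zero
    by_contra h0
    exact hne (Nat.eq_of_mul_eq_mul_right (Nat.pos_of_ne_zero h0) h2)
  show val h [0, 1] = val h [1, 0]
  simp only [val_cons', val_nil', h3, List.append_nil, List.nil_append]

theorem npb_same (a b c d e f : ℕ) (hne : ¬ (a = d ∧ b = e ∧ c = f)) :
    NPB (List.replicate a 1 ++ 0 :: (List.replicate b 1 ++ 2 :: List.replicate c 1),
      List.replicate d 1 ++ 0 :: (List.replicate e 1 ++ 2 :: List.replicate f 1)) := by
  rcases same_order a b c d e f hne with h | h | h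
  · refine npb_xy.mono (fun α g hs => ?_)
    have h1 : val g _ = val g _ := hs
    rw [val_xz, val_xz] at h1
    have h2 := h α _ _ _ h1
    show val g [0, 1] = val g [1, 0]
    simpa only [val_cons', val_nil', List.append_nil] using h2
  · refine npb_zy.mono (fun α g hs => ?_)
    have h1 : val g _ = val g _ := hs
    rw [val_xz, val_xz] at h1
    have h2 := h α _ _ _ h1
    show val g [2, 1] = val g [1, 2]
    simpa only [val_cons', val_nil', List.append_nil] using h2
  · refine npb_xz_y.mono (fun α g hs => ?_)
    have h1 : val g _ = val g _ := hs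
    rw [val_xz, val_xz] at h1
    have h2 := h α _ _ _ h1
    show val g [0, 2, 1] = val g [1, 0, 2]
    simpa only [val_cons', val_nil', List.append_nil, List.append_assoc] using h2

theorem npb_swap (a b c d e f : ℕ) :
    NPB (List.replicate a 1 ++ 0 :: (List.replicate b 1 ++ 2 :: List.replicate c 1),
      List.replicate d 1 ++ 2 :: (List.replicate e 1 ++ 0 :: List.replicate f 1)) := by
  rcases swap_order a b c d e f with h | ⟨m, k, p, q, h⟩ | ⟨e', b', D, hD, h⟩ | ⟨e', b', D, hD, h⟩
  · refine npb_xy.mono (fun α g hs => ?_)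
    have h1 : val g _ = val g _ := hs
    rw [val_xz, val_zx] at h1
    have h2 := h α _ _ _ h1
    show val g [0, 1] = val g [1, 0]
    simpa only [val_cons', val_nil', List.append_nil] using h2
  · refine (npb_comm m k p q).mono (fun α g hs => ?_)
    have h1 : val g _ = val g _ := hs
    rw [val_xz, val_zx] at h1
    have h2 := h α _ _ _ h1
    show val g (pw m k ++ qw p q) = val g (qw p q ++ pw m k)
    rw [val_append, val_append, val_pw, val_qw]
    exact h2
  · refine (npb_c e' b' D hD).mono (fun α g hs => ?_)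
    have h1 : val g _ = val g _ := hs
    rw [val_xz, val_zx] at h1
    have h2 := h α _ _ _ h1
    exact (solves_c g e' b' D).2 h2
  · refine ((npb_c e' b' D hD).mir.ren (Equiv.swap 0 2)).mono (fun α g hs => ?_)
    have h1 : val g _ = val g _ := hs
    rw [val_xz, val_zx] at h1
    have h2 := h α _ _ _ h1
    rw [solves_ren, solves_mir, solves_c]
    have h3 := congrArg List.reverse h2
    simp only [List.reverse_append, pow_reverse] at h3
    show pow (g (Equiv.swap 0 2 1)).reverse (e' + D) ++ (g (Equiv.swap 0 2 0)).reverse ++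
        pow (g (Equiv.swap 0 2 1)).reverse b' ++ (g (Equiv.swap 0 2 2)).reverse =
      (g (Equiv.swap 0 2 2)).reverse ++ pow (g (Equiv.swap 0 2 1)).reverse e' ++
        (g (Equiv.swap 0 2 0)).reverse ++ pow (g (Equiv.swap 0 2 1)).reverse (b' + D)
    have s0 : (Equiv.swap (0 : Fin 3) 2) 0 = 2 := by decide
    have s1 : (Equiv.swap (0 : Fin 3) 2) 1 = 1 := by decide
    have s2 : (Equiv.swap (0 : Fin 3) 2) 2 = 0 := by decide
    rw [s0, s1, s2]
    simpa only [List.append_assoc] using h3

theorem map_rep (σ : Equiv.Perm (Fin 3)) (a : ℕ) (hσ : σ 1 = 1) :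
    (List.replicate a (1 : Fin 3)).map σ = List.replicate a 1 := by
  rw [List.map_replicate, hσ]

theorem npb_class02 (U V : List (Fin 3)) (hne : U ≠ V) (hU0 : U.count 0 ≤ 1) (hU2 : U.count 2 ≤ 1)
    (hV0 : V.count 0 ≤ 1) (hV2 : V.count 2 ≤ 1) : NPB (U, V) := by
  have hs0 : (Equiv.swap (0 : Fin 3) 2) 0 = 2 := by decide
  have hs1 : (Equiv.swap (0 : Fin 3) 2) 1 = 1 := by decide
  have hs2 : (Equiv.swap (0 : Fin 3) 2) 2 = 0 := by decide
  have once0 : U.count 0 + V.count 0 = 1 → NPB (U, V) := fun h => npb_once (U, V) 0 h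
  have once2 : U.count 2 + V.count 2 = 1 → NPB (U, V) := fun h => npb_once (U, V) 2 h
  rcases forms U hU0 hU2 with ⟨a, hU⟩ | ⟨a, b, hU⟩ | ⟨a, b, hU⟩ | ⟨a, b, c, hU⟩ | ⟨a, b, c, hU⟩ <;>
  rcases forms V hV0 hV2 with ⟨d, hV⟩ | ⟨d, e, hV⟩ | ⟨d, e, hV⟩ | ⟨d, e, f, hV⟩ | ⟨d, e, f, hV⟩
  · -- y, y
    subst hU hV
    exact npb_y a d (fun h => hne (by rw [h]))
  · exact once0 (by rw [hU, hV]; simp [List.count_append, List.count_replicate])
  · exact once2 (by rw [hU, hV]; simp [List.count_append, List.count_replicate])
  · exact once0 (by rw [hU, hV]; simp [List.count_append, List.count_replicate])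
  · exact once0 (by rw [hU, hV]; simp [List.count_append, List.count_replicate])
  · exact once0 (by rw [hU, hV]; simp [List.count_append, List.count_replicate])
  · -- x, x
    subst hU hV
    refine npb_xy.mono (fun α g hs => ?_)
    have h1 : val g _ = val g _ := hs
    rw [val_x, val_x] at h1
    have h2 := one_unknown a b d e (fun h => hne (by rw [h.1, h.2])) _ _ h1
    show val g [0, 1] = val g [1, 0]
    simpa only [val_cons', val_nil', List.append_nil] using h2
  · exact once0 (by rw [hU, hV]; simp [List.count_append, List.count_replicate])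
  · exact once2 (by rw [hU, hV]; simp [List.count_append, List.count_replicate])
  · exact once2 (by rw [hU, hV]; simp [List.count_append, List.count_replicate])
  · exact once2 (by rw [hU, hV]; simp [List.count_append, List.count_replicate])
  · exact once0 (by rw [hU, hV]; simp [List.count_append, List.count_replicate])
  · -- z, z
    subst hU hV
    refine npb_zy.mono (fun α g hs => ?_)
    have h1 : val g _ = val g _ := hs
    rw [val_z, val_z] at h1
    have h2 := one_unknown a b d e (fun h => hne (by rw [h.1, h.2])) _ _ h1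
    show val g [2, 1] = val g [1, 2]
    simpa only [val_cons', val_nil', List.append_nil] using h2
  · exact once0 (by rw [hU, hV]; simp [List.count_append, List.count_replicate])
  · exact once0 (by rw [hU, hV]; simp [List.count_append, List.count_replicate])
  · exact once0 (by rw [hU, hV]; simp [List.count_append, List.count_replicate])
  · exact once2 (by rw [hU, hV]; simp [List.count_append, List.count_replicate])
  · exact once0 (by rw [hU, hV]; simp [List.count_append, List.count_replicate])
  · -- xz, xz
    subst hU hV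
    exact npb_same a b c d e f (fun h => hne (by rw [h.1, h.2.1, h.2.2]))
  · -- xz, zx
    subst hU hV
    exact npb_swap a b c d e f
  · exact once0 (by rw [hU, hV]; simp [List.count_append, List.count_replicate])
  · exact once2 (by rw [hU, hV]; simp [List.count_append, List.count_replicate])
  · exact once0 (by rw [hU, hV]; simp [List.count_append, List.count_replicate])
  · -- zx, xz
    subst hU hV
    exact (npb_swap d e f a b c).symm
  · -- zx, zx
    subst hU hV
    have h := (npb_same a b c d e f (fun h => hne (by rw [h.1, h.2.1, h.2.2]))).ren (Equiv.swap 0 2)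
    have h2 : WE.ren (Equiv.swap 0 2)
        (List.replicate a 1 ++ 0 :: (List.replicate b 1 ++ 2 :: List.replicate c 1),
          List.replicate d 1 ++ 0 :: (List.replicate e 1 ++ 2 :: List.replicate f 1)) =
        (List.replicate a 1 ++ 2 :: (List.replicate b 1 ++ 0 :: List.replicate c 1),
          List.replicate d 1 ++ 2 :: (List.replicate e 1 ++ 0 :: List.replicate f 1)) := by
      unfold WE.ren
      simp only [List.map_append, List.map_cons, List.map_replicate, hs0, hs1, hs2]
    rwa [h2] at h

theorem perm_ex : ∀ c d : Fin 3, c ≠ d → ∃ σ : Equiv.Perm (Fin 3), σ 0 = c ∧ σ 2 = d := by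
  decide

theorem npb_class (F : List (Fin 3) × List (Fin 3)) (c d : Fin 3) (hcd : c ≠ d) (hne : F.1 ≠ F.2)
    (h1 : F.1.count c ≤ 1) (h2 : F.1.count d ≤ 1) (h3 : F.2.count c ≤ 1) (h4 : F.2.count d ≤ 1) : NPB F := by
  obtain ⟨σ, hσ0, hσ2⟩ := perm_ex c d hcd
  have hc : ∀ (U : List (Fin 3)) (u : Fin 3), (U.map (σ⁻¹ : Equiv.Perm (Fin 3))).count u = U.count (σ u) := by
    intro U u
    have := List.count_map_of_injective U (σ⁻¹ : Equiv.Perm (Fin 3)) (Equiv.injective _) (σ u)
    simpa using this
  have hm : ∀ U : List (Fin 3), (U.map (σ⁻¹ : Equiv.Perm (Fin 3))).map σ = U := by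
    intro U
    rw [List.map_map]
    have : (σ : Fin 3 → Fin 3) ∘ (σ⁻¹ : Equiv.Perm (Fin 3)) = id := by
      ext u
      simp
    rw [this, List.map_id]
  have h := (npb_class02 (F.1.map (σ⁻¹ : Equiv.Perm (Fin 3))) (F.2.map (σ⁻¹ : Equiv.Perm (Fin 3))) (fun he => hne (by rw [← hm F.1, he, hm F.2]))
    (by rw [hc, hσ0]; exact h1) (by rw [hc, hσ2]; exact h2) (by rw [hc, hσ0]; exact h3)
    (by rw [hc, hσ2]; exact h4)).ren σ
  have h5 : WE.ren σ (F.1.map (σ⁻¹ : Equiv.Perm (Fin 3)), F.2.map (σ⁻¹ : Equiv.Perm (Fin 3))) = F := by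
    unfold WE.ren
    rw [hm, hm]
  rwa [h5] at h

/-- the bound -/
theorem npb_bound {n r : ℕ} {E : Fin n → List (Fin 3) × List (Fin 3)} {F : List (Fin 3) × List (Fin 3)}
    (hF : NPB F) (hE : Decreasing α n E)
    (hr : ∀ h : Fin 3 → List α, (∀ i : Fin n, i.val < r → Solves h (E i)) → Solves h F) : n ≤ r + 6 := by
  classical
  choose h hs hne using hE
  let S1 : Finset (Fin n) := Finset.univ.filter (fun i => r ≤ i.val ∧ Per (h i))
  let S2 : Finset (Fin n) := Finset.univ.filter (fun i => r ≤ i.val ∧ ¬ Per (h i))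
  let S0 : Finset (Fin n) := Finset.univ.filter (fun i => i.val < r)
  have c1 : S1.card ≤ 3 := by
    apply card_le
    intro e he hm
    have := per_bound (fun i => E (e i)) (fun i => h (e i)) (fun i => (Finset.mem_filter.1 (hm i)).2.2)
      (fun i j hij => hs (e i) (e j) (he hij)) (fun i => hne (e i))
    omega
  have c2 : S2.card ≤ 3 := by
    apply card_le
    intro e he hm
    refine hF α (fun i => E (e i)) (fun i => h (e i)) (fun i => (Finset.mem_filter.1 (hm i)).2.2)
      (fun i => ?_) (fun i j hij => hs (e i) (e j) (he hij)) (fun i => hne (e i))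
    apply hr
    intro j hj
    apply hs
    have h1 := (Finset.mem_filter.1 (hm i)).2.1
    exact Fin.lt_def.2 (lt_of_lt_of_le hj h1)
  have c0 : S0.card ≤ r := by
    have h1 : S0.card ≤ (Finset.range r).card := by
      apply Finset.card_le_card_of_injOn (fun i : Fin n => i.val)
      · intro i hi
        have := (Finset.mem_filter.1 hi).2
        simpa using this
      · intro i _ j _ hij
        exact Fin.ext hij
    simpa using h1
  have hU : (Finset.univ : Finset (Fin n)) ⊆ S0 ∪ (S1 ∪ S2) := by
    intro i _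
    by_cases hi : i.val < r
    · exact Finset.mem_union_left _ (Finset.mem_filter.2 ⟨Finset.mem_univ _, hi⟩)
    · have hi' : r ≤ i.val := not_lt.1 hi
      apply Finset.mem_union_right
      by_cases hp : Per (h i)
      · exact Finset.mem_union_left _ (Finset.mem_filter.2 ⟨Finset.mem_univ _, hi', hp⟩)
      · exact Finset.mem_union_right _ (Finset.mem_filter.2 ⟨Finset.mem_univ _, hi', hp⟩)
  have h1 := Finset.card_le_card hU
  have h2 := Finset.card_union_le S0 (S1 ∪ S2)
  have h3 := Finset.card_union_le S1 S2
  rw [Finset.card_univ, Fintype.card_fin] at h1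
  omega

/-- the word in `x, y, z` obtained from a word in two letters by the substitution `true ↦ P`, `false ↦ Q` -/
def subst (P Q : List (Fin 3)) (U : List Bool) : List (Fin 3) := U.flatMap (fun s => if s then P else Q)

theorem val_subst (P Q : List (Fin 3)) (h : Fin 3 → List α) (U : List Bool) :
    val h (subst P Q U) = U.flatMap (fun s => if s then val h P else val h Q) := by
  induction U with
  | nil => rfl
  | cons c U ih =>
    have h1 : subst P Q (c :: U) = (if c then P else Q) ++ subst P Q U := by
      unfold subst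
      rw [List.flatMap_cons]
    rw [h1, val_append, ih, List.flatMap_cons]
    cases c <;> rfl

theorem rel_bound {n : ℕ} {P Q : List (Fin 3)} {c d : Fin 3} {E : Fin (n + 1) → List (Fin 3) × List (Fin 3)}
    (hE : Decreasing α (n + 1) E) (hcd : c ≠ d) (hPQ : P ++ Q ≠ Q ++ P) (hc : (P ++ Q).count c ≤ 1)
    (hd : (P ++ Q).count d ≤ 1) {U V : List Bool} (hUV : U ≠ V)
    (h0 : E 0 = (subst P Q U, subst P Q V)) : n + 1 ≤ 7 := by
  have hF : NPB (P ++ Q, Q ++ P) := by
    refine npb_class _ c d hcd hPQ hc hd ?_ ?_
    · rw [List.count_append, Nat.add_comm, ← List.count_append]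
      exact hc
    · rw [List.count_append, Nat.add_comm, ← List.count_append]
      exact hd
  have := npb_bound (r := 1) hF hE (fun h hh => by
    have h1 := hh 0 (by simp)
    rw [h0] at h1
    unfold Solves at h1
    change val h (subst P Q U) = val h (subst P Q V) at h1
    rw [val_subst, val_subst] at h1
    show val h (P ++ Q) = val h (Q ++ P)
    rw [val_append, val_append]
    exact rel_comm _ _ U V hUV h1)
  omega

end Pool.Agent.H70.WE
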