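import Pool.Agent.H70.WX.Defs

/-!
# [H70 WX CtA] Words: long `z`

`W = y^(e+D) x y^b z = z y^e x y^(b+D)` ends with `y^D` and with `z`, so `y^D` is a suffix of `z` (`|y^D| ≤ |z|`),
`z = q y^D`; put it in and cancel `y^D` on the right.
-/

set_option autoImplicit false

namespace Pool.Agent.H70.WE

variable {α : Type}

theorem ctA (x y z : List α) (e b D : ℕ)
    (h : pow y (e + D) ++ x ++ pow y b ++ z = z ++ pow y e ++ x ++ pow y (b + D))
    (hl : (pow y D).length ≤ z.length) :
    ∃ q, z = q ++ pow y D ∧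
      (pow y (e + D) ++ x ++ pow y b) ++ q = q ++ (pow y (e + D) ++ x ++ pow y b) := by
  have s1 : z <:+ pow y (e + D) ++ x ++ pow y b ++ z := List.suffix_append _ _
  have s2 : pow y D <:+ pow y (e + D) ++ x ++ pow y b ++ z := by
    rw [h, pow_add' y b D]
    exact ⟨z ++ pow y e ++ x ++ pow y b, by simp only [List.append_assoc]⟩
  obtain ⟨q, hq⟩ := List.suffix_of_suffix_length_le s2 s1 hl
  refine ⟨q, hq.symm, ?_⟩
  have h1 : (pow y (e + D) ++ x ++ pow y b ++ q) ++ pow y D =
      (q ++ (pow y (e + D) ++ x ++ pow y b)) ++ pow y D := by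
    have h2 := h
    rw [← hq, pow_add' y b D] at h2
    have h3 : pow y (e + D) = pow y D ++ pow y e := by
      rw [Nat.add_comm e D, pow_add' y D e]
    calc (pow y (e + D) ++ x ++ pow y b ++ q) ++ pow y D
        = pow y (e + D) ++ x ++ pow y b ++ (q ++ pow y D) := by
          simp only [List.append_assoc]
      _ = q ++ pow y D ++ pow y e ++ x ++ (pow y b ++ pow y D) := h2
      _ = (q ++ (pow y D ++ pow y e ++ x ++ pow y b)) ++ pow y D := by
          simp only [List.append_assoc]
      _ = (q ++ (pow y (e + D) ++ x ++ pow y b)) ++ pow y D := by rw [h3]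
  exact List.append_cancel_right h1

end Pool.Agent.H70.WE
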