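import Pool.Agent.H70.WX.Defs

/-!
# [H70 WX CtB] Words: short `z`

`P = y^(e+D) x y^b`, `P z = W = z y^e x y^(b+D)`, `|z| < |y^D|` (so `y ≠ []`, `D ≥ 1`). `W` starts with `z` and with `y^D`, and ends
with `z` and with `y^D`: `y^D = z r = r' z`. With `s = z y^e x y^b`: `P = s r'` (cancel `z` on the right in `P z = s y^D = s r' z`)
and `P = y^D y^e x y^b = r' s`. So `r' s = s r'`, `comm_pow`: `r' = w^p`, `s = w^q`, `P = w^(p+q)`, `p ≥ 1`, `w ≠ []`, `P w = w P`.
(0) If `w y = y w` then `x, y, z` are powers of one word (contradiction with `hn`): `comm_pow`, `mid_pow` (Typ.lean). Note that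
`q = 0` gives `z = x = []`, again a contradiction.
(1) `e ≥ 1` is impossible: `w` is a prefix of `y^D`, `P` starts with `y^(D+1)`; `w P = P w` starts with `w y` and with the prefix
of `y^(D+1)` of length `|w| + |y|`, which is `y w`. So `w y = y w`.
(2) `b ≥ 1` is impossible: the mirror image of (1) (`List.reverse`: the equation goes to itself with `e, b` exchanged; state (1) as a
separate lemma for arbitrary `x y z` and apply it to the reversed words; `pow_reverse` is in Defs).
(3) `e = b = 0`, so `D ≥ 2` by `hx`. `p = 1`: if `p ≥ 2` then `w w` is a prefix of `y^D`, so `2 |w| ≤ D |y|` and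
`|w| + |y| ≤ D |y|`; `w P = P w`, `P` starts with `y^D`: `w y` and `y w` are prefixes of the same word again: `w y = y w`.
So `y^D = w z`, `P = y^D x = w^(1+q)`, `q ≥ 1`.
-/

set_option autoImplicit false

namespace Pool.Agent.H70.WE

variable {α : Type}

/-- `w` and `y` commute: everything is a power of one word -/
private theorem ctB0 (x y z r w : List α) (m b D p c : ℕ) (hp : r = pow w p)
    (h1 : pow y D = r ++ z) (h2 : pow y m ++ x ++ pow y b = pow w c) (hc : w ++ y = y ++ w) :
    ∃ w : List α, (∃ n, x = pow w n) ∧ (∃ n, y = pow w n) ∧ ∃ n, z = pow w n := by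
  obtain ⟨u, i, j, hi, hj⟩ := comm_pow w y hc
  change w = pow u i at hi
  change y = pow u j at hj
  refine ⟨u, ?_, ⟨j, hj⟩, ?_⟩
  · have h3 : pow u (j * m) ++ x ++ pow u (j * b) = pow u (i * c) := by
      rw [pow_mul', pow_mul', pow_mul', ← hj, ← hi]
      exact h2
    exact mid_pow h3
  · have h3 : pow u (i * p) ++ z ++ pow u 0 = pow u (j * D) := by
      rw [pow_mul', pow_mul', ← hj, ← hi, ← hp, h1, pow_zero', List.append_nil]
    exact mid_pow h3

private theorem ctB_one (w : List α) : pow w 1 = w := by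
  unfold pow
  simp

private theorem ctB_succ (w : List α) (n : ℕ) : pow w (n + 1) = w ++ pow w n := by
  rw [Nat.add_comm, pow_add', ctB_one]

/-- two prefixes of the same word of the same length -/
private theorem ctB_pre {u v a b : List α} (h : u ++ a = v ++ b) (hl : u.length = v.length) : u = v :=
  (List.append_inj h hl).1

/-- the basic decomposition -/
private theorem ctB1 (x y z : List α) (e b D : ℕ)
    (h : pow y (e + D) ++ x ++ pow y b ++ z = z ++ pow y e ++ x ++ pow y (b + D))
    (hl : z.length < (pow y D).length) :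
    ∃ (w r' : List α) (p q : ℕ), r' = pow w p ∧ r' ≠ [] ∧ pow y D = r' ++ z ∧
      z ++ pow y e ++ x ++ pow y b = pow w q ∧ pow y (e + D) ++ x ++ pow y b = pow w (p + q) := by
  have hR : z ++ pow y e ++ x ++ pow y (b + D) = (z ++ pow y e ++ x ++ pow y b) ++ pow y D := by
    rw [pow_add']
    simp only [List.append_assoc]
  rw [hR] at h
  -- `y ^ D = r' ++ z`
  have h1 : z <:+ pow y D := by
    refine List.suffix_of_suffix_length_le (l₃ := pow y (e + D) ++ x ++ pow y b ++ z) ?_ ?_ hl.le
    · exact List.suffix_append _ _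
    · rw [h]
      exact List.suffix_append _ _
  obtain ⟨r', hr'⟩ := h1
  have hr0 : r' ≠ [] := by
    rintro rfl
    rw [← hr'] at hl
    simp at hl
  -- `P = s ++ r'`
  have h2 : pow y (e + D) ++ x ++ pow y b = (z ++ pow y e ++ x ++ pow y b) ++ r' := by
    rw [← hr', ← List.append_assoc (z ++ pow y e ++ x ++ pow y b)] at h
    exact List.append_cancel_right h
  -- `P = r' ++ s`
  have h3 : pow y (e + D) ++ x ++ pow y b = r' ++ (z ++ pow y e ++ x ++ pow y b) := by
    rw [Nat.add_comm e D, pow_add', ← hr']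
    simp only [List.append_assoc]
  obtain ⟨w, p, q, hp, hq⟩ := comm_pow r' (z ++ pow y e ++ x ++ pow y b) (h3.symm.trans h2)
  change r' = pow w p at hp
  change _ = pow w q at hq
  refine ⟨w, r', p, q, hp, hr0, hr'.symm, hq, ?_⟩
  rw [h3, hq, hp, ← pow_add']

/-- if `P` starts with `y ^ m` and `|w| + |y| ≤ |y ^ m|`, `w` a prefix of `y ^ m`, then `w y = y w` -/
private theorem ctB2 (w y R : List α) (m c : ℕ) (hc : pow w c = pow y m ++ R) (hm : 0 < m) (hc0 : 0 < c)
    (hl : w.length + y.length ≤ (pow y m).length) : w ++ y = y ++ w := by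
  obtain ⟨n, rfl⟩ : ∃ n, m = n + 1 := ⟨m - 1, by omega⟩
  obtain ⟨k, rfl⟩ : ∃ k, c = k + 1 := ⟨c - 1, by omega⟩
  have hlen : w.length ≤ (pow y n).length := by
    rw [pow_length] at hl ⊢
    rw [Nat.add_mul, Nat.one_mul] at hl
    omega
  -- `w ++ P = P ++ w`
  have h1 : w ++ pow w (k + 1) = pow w (k + 1) ++ w := by
    rw [← ctB_succ, pow_add' w (k + 1) 1, ctB_one]
  -- `w` is a prefix of `y ^ n`
  have h2 : w <+: pow y n := by
    have h3 : w <+: pow w (k + 1) := by
      rw [ctB_succ]
      exact List.prefix_append _ _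
    have h4 : pow y n <+: pow w (k + 1) := by
      rw [hc, pow_add' y n 1, List.append_assoc]
      exact List.prefix_append _ _
    exact List.prefix_of_prefix_length_le h3 h4 hlen
  obtain ⟨t, ht⟩ := h2
  have h5 : (w ++ y) ++ (pow y n ++ R) = (y ++ w) ++ (t ++ R ++ w) := by
    have h6 : w ++ pow w (k + 1) = (w ++ y) ++ (pow y n ++ R) := by
      rw [hc, ctB_succ y n]
      simp only [List.append_assoc]
    have h7 : pow w (k + 1) ++ w = (y ++ w) ++ (t ++ R ++ w) := by
      rw [hc, ctB_succ y n, ← ht]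
      simp only [List.append_assoc]
    rw [← h6, ← h7, h1]
  exact ctB_pre h5 (by rw [List.length_append, List.length_append, Nat.add_comm])

/-- `e = 0` -/
private theorem ctB3 (x y z : List α) (e b D : ℕ)
    (h : pow y (e + D) ++ x ++ pow y b ++ z = z ++ pow y e ++ x ++ pow y (b + D))
    (hl : z.length < (pow y D).length)
    (hn : ¬ ∃ w : List α, (∃ n, x = pow w n) ∧ (∃ n, y = pow w n) ∧ ∃ n, z = pow w n) : e = 0 := by
  by_contra he
  obtain ⟨w, r, p, q, hp, hr, h1, h2, h3⟩ := ctB1 x y z e b D h hl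
  have hD : 0 < D := by
    rcases Nat.eq_zero_or_pos D with h4 | h4
    · subst h4
      simp [pow_zero'] at hl
    · exact h4
  have hp0 : 0 < p := by
    rcases Nat.eq_zero_or_pos p with h4 | h4
    · subst h4
      exact absurd hp hr
    · exact h4
  have hwl : w.length ≤ (pow y D).length := by
    rw [h1, hp, List.length_append, pow_length]
    have : 1 * w.length ≤ p * w.length := Nat.mul_le_mul_right _ hp0
    omega
  apply hn
  refine ctB0 x y z r w (e + D) b D p (p + q) hp h1 h3 ?_
  refine ctB2 w y (x ++ pow y b) (e + D) (p + q) ?_ (by omega) (by omega) ?_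
  · rw [← h3, List.append_assoc]
  · have h5 : (pow y (e + D)).length = (pow y e).length + (pow y D).length := by
      rw [pow_add', List.length_append]
    rw [h5]
    have h6 : y.length ≤ (pow y e).length := by
      rw [pow_length]
      have : 1 * y.length ≤ e * y.length := Nat.mul_le_mul_right _ (by omega)
      omega
    omega

theorem ctB (x y z : List α) (e b D : ℕ) (hx : ¬ (e = 0 ∧ b = 0 ∧ D = 1))
    (h : pow y (e + D) ++ x ++ pow y b ++ z = z ++ pow y e ++ x ++ pow y (b + D))
    (hl : z.length < (pow y D).length)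
    (hn : ¬ ∃ w : List α, (∃ n, x = pow w n) ∧ (∃ n, y = pow w n) ∧ ∃ n, z = pow w n) :
    e = 0 ∧ b = 0 ∧ ∃ (w : List α) (j : ℕ), 2 ≤ j ∧ pow y D ++ x = pow w j ∧ w ++ z = pow y D := by
  have he : e = 0 := ctB3 x y z e b D h hl hn
  have hb : b = 0 := by
    refine ctB3 x.reverse y.reverse z.reverse b e D ?_ ?_ ?_
    · have h1 := congrArg List.reverse h
      simp only [List.reverse_append, pow_reverse] at h1
      simp only [List.append_assoc] at h1 ⊢
      exact h1.symm
    · rw [List.length_reverse, pow_length, List.length_reverse, ← pow_length]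
      exact hl
    · rintro ⟨w, ⟨n1, h1⟩, ⟨n2, h2⟩, n3, h3⟩
      refine hn ⟨w.reverse, ⟨n1, ?_⟩, ⟨n2, ?_⟩, n3, ?_⟩
      · rw [← pow_reverse, ← h1, List.reverse_reverse]
      · rw [← pow_reverse, ← h2, List.reverse_reverse]
      · rw [← pow_reverse, ← h3, List.reverse_reverse]
  obtain ⟨w, r, p, q, hp, hr, h1, h2, h3⟩ := ctB1 x y z e b D h hl
  have hD : 0 < D := by
    rcases Nat.eq_zero_or_pos D with h4 | h4
    · subst h4
      simp [pow_zero'] at hl
    · exact h4
  subst he
  subst hb
  have hD2 : 2 ≤ D := by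
    by_contra hD2
    exact hx ⟨rfl, rfl, by omega⟩
  rw [pow_zero', List.append_nil, List.append_nil] at h2
  rw [Nat.zero_add, pow_zero', List.append_nil] at h3
  have hp0 : 0 < p := by
    rcases Nat.eq_zero_or_pos p with h4 | h4
    · subst h4
      exact absurd hp hr
    · exact h4
  have hp1 : p = 1 := by
    by_contra hp1
    have hwl : 2 * w.length ≤ (pow y D).length := by
      rw [h1, hp, List.length_append, pow_length]
      have : 2 * w.length ≤ p * w.length := Nat.mul_le_mul_right _ (by omega)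
      omega
    have hyl : 2 * y.length ≤ (pow y D).length := by
      rw [pow_length]
      exact Nat.mul_le_mul_right _ hD2
    apply hn
    refine ctB0 x y z r w D 0 D p (p + q) hp h1 (by rw [pow_zero', List.append_nil]; exact h3) ?_
    exact ctB2 w y x D (p + q) h3.symm hD (by omega) (by omega)
  subst hp1
  rw [ctB_one] at hp
  subst hp
  have hq : q ≠ 0 := by
    rintro rfl
    rw [pow_zero'] at h2
    obtain ⟨hz, hx0⟩ := List.append_eq_nil_iff.1 h2
    exact hn ⟨y, ⟨0, hx0⟩, ⟨1, (ctB_one y).symm⟩, 0, hz⟩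
  exact ⟨rfl, rfl, r, 1 + q, by omega, h3, h1.symm⟩

end Pool.Agent.H70.WE
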