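import Pool.Agent.H70.WE.Fin

/-!
# [H70 WX Defs] First equations in which two unknowns occur at most once on each side: definitions, tools
-/

set_option autoImplicit false

namespace Pool.Agent.H70.WE

/-- integer exponents: `x ↦ B^(-m) A^j B^(-k)`, `y ↦ B`, `z ↦ B^(-a) A^i B^(-b)` -/
def gz (m k a b j i : ℤ) : Fin 3 → G2 :=
  ![gB ^ (-m) * gA ^ j * gB ^ (-k), gB, gB ^ (-a) * gA ^ i * gB ^ (-b)]

/-- the value of a word under `gz` -/
def gzv (m k a b j i : ℤ) (U : List (Fin 3)) : G2 := (U.map (gz m k a b j i)).prod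

/-- the equation holds at the type `(j, i)` -/
def EqZ (m k a b j i : ℤ) (E : List (Fin 3) × List (Fin 3)) : Prop :=
  gzv m k a b j i E.1 = gzv m k a b j i E.2

/-- `B^e1 A^s1 B^e2 A^s2 ... B^en A^sn B^f` with integer exponents -/
def ev3 : List (ℤ × ℤ) → ℤ → G2
  | [], f => gB ^ f
  | (e, s) :: L, f => gB ^ e * gA ^ s * ev3 L f

/-- normal form: nonzero powers of `A`, and inner powers of `B` with nonzero exponents -/
def Good3 (L : List (ℤ × ℤ)) : Prop := (∀ p ∈ L, p.2 ≠ 0) ∧ ∀ p ∈ L.tail, p.1 ≠ 0

/-- generic types of the exceptional family -/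
def Gen (j i : ℤ) : Prop := (0 < j ∧ 0 < i) ∨ (3 ≤ j ∧ i = -1)

/-- at most three non periodic witnesses after the equation `F` -/
def NPB (F : List (Fin 3) × List (Fin 3)) : Prop :=
  ∀ (α : Type) (E : Fin 4 → List (Fin 3) × List (Fin 3)) (h : Fin 4 → Fin 3 → List α),
    (∀ i, ¬ Per (h i)) → (∀ i, Solves (h i) F) → (∀ i j, j < i → Solves (h i) (E j)) →
    (∀ i, ¬ Solves (h i) (E i)) → False

theorem NPB.mono {F F' : List (Fin 3) × List (Fin 3)} (h' : NPB F')
    (hF : ∀ (α : Type) (h : Fin 3 → List α), Solves h F → Solves h F') : NPB F :=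
  fun α E h h1 h2 h3 h4 => h' α E h h1 (fun i => hF α (h i) (h2 i)) h3 h4

theorem NPB.symm {F : List (Fin 3) × List (Fin 3)} (h' : NPB F) : NPB (F.2, F.1) :=
  h'.mono (fun _ _ h => Eq.symm h)

theorem npb_comm (m k a b : ℕ) : NPB (pw m k ++ qw a b, qw a b ++ pw m k) :=
  fun _ E h h1 h2 h3 h4 => np_bound m k a b E h h1 h2 h3 h4

/-- the image of an equation under a renaming of the unknowns -/
def ren (σ : Equiv.Perm (Fin 3)) (F : List (Fin 3) × List (Fin 3)) : List (Fin 3) × List (Fin 3) :=
  (F.1.map σ, F.2.map σ)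

/-- the mirror image of an equation -/
def mir (F : List (Fin 3) × List (Fin 3)) : List (Fin 3) × List (Fin 3) := (F.1.reverse, F.2.reverse)

theorem val_map {α : Type} (h : Fin 3 → List α) (σ : Equiv.Perm (Fin 3)) (U : List (Fin 3)) :
    val h (U.map σ) = val (fun c => h (σ c)) U := by
  unfold val
  rw [List.flatMap_map]

theorem solves_ren {α : Type} (h : Fin 3 → List α) (σ : Equiv.Perm (Fin 3)) (F : List (Fin 3) × List (Fin 3)) :
    Solves h (ren σ F) ↔ Solves (fun c => h (σ c)) F := by
  unfold Solves ren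
  simp only [val_map]

theorem NPB.ren {F : List (Fin 3) × List (Fin 3)} (h' : NPB F) (σ : Equiv.Perm (Fin 3)) : NPB (ren σ F) := by
  intro α E h h1 h2 h3 h4
  refine h' α (fun j => WE.ren σ⁻¹ (E j)) (fun i c => h i (σ c)) ?_ ?_ ?_ ?_
  · rintro i ⟨w, hw⟩
    refine h1 i ⟨w, fun c => ?_⟩
    have := hw (σ⁻¹ c)
    simpa using this
  · intro i
    exact (solves_ren (h i) σ F).1 (h2 i)
  · intro i j hij
    rw [solves_ren]
    have := h3 i j hij
    simpa using this
  · intro i hi
    apply h4 i
    rw [solves_ren] at hi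
    simpa using hi

theorem val_reverse {α : Type} (h : Fin 3 → List α) (U : List (Fin 3)) :
    val h U.reverse = (val (fun c => (h c).reverse) U).reverse := by
  induction U with
  | nil => rfl
  | cons c U ih =>
    have h1 : val (fun c => (h c).reverse) (c :: U) = (h c).reverse ++ val (fun c => (h c).reverse) U := by
      unfold val
      rw [List.flatMap_cons]
    rw [h1, List.reverse_cons, val_append, ih, List.reverse_append, List.reverse_reverse]
    congr 1
    unfold val
    simp

theorem solves_mir {α : Type} (h : Fin 3 → List α) (F : List (Fin 3) × List (Fin 3)) :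
    Solves h (mir F) ↔ Solves (fun c => (h c).reverse) F := by
  unfold Solves mir
  simp only [val_reverse]
  exact ⟨fun e => List.reverse_injective e, fun e => by rw [e]⟩

theorem pow_reverse {α : Type} (w : List α) (n : ℕ) : (pow w n).reverse = pow w.reverse n := by
  induction n with
  | zero => rfl
  | succ n ih =>
    rw [pow_add', List.reverse_append, ih, Nat.add_comm n 1, pow_add']
    congr 1
    unfold pow
    simp

theorem NPB.mir {F : List (Fin 3) × List (Fin 3)} (h' : NPB F) : NPB (mir F) := by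
  intro α E h h1 h2 h3 h4
  refine h' α (fun j => WE.mir (E j)) (fun i c => (h i c).reverse) ?_ ?_ ?_ ?_
  · rintro i ⟨w, hw⟩
    refine h1 i ⟨w.reverse, fun c => ?_⟩
    obtain ⟨n, hn⟩ := hw c
    refine ⟨n, ?_⟩
    have hn' : (h i c).reverse = pow w n := hn
    have h5 : (h i c).reverse.reverse = (pow w n).reverse := by rw [hn']
    rw [List.reverse_reverse, pow_reverse] at h5
    exact h5
  · intro i
    exact (solves_mir (h i) F).1 (h2 i)
  · intro i j hij
    rw [solves_mir]
    have := h3 i j hij
    simpa using this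
  · intro i hi
    apply h4 i
    rw [solves_mir] at hi
    simpa using hi

end Pool.Agent.H70.WE
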