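import Pool.Agent.H70.WX.Nf3

/-!
# [H70 WX Pos3] An equation which holds at two generic types holds at all types (integer exponents)

`posP`: the proof of `pos_pos` in `Pool/Agent/H70/WE/Pos.lean`, with integers `m k a b` (symbolic syllables
`(e, (s, t))`, `s t : ℕ`, `s + t > 0`, value `B^e A^(s j + t i)`, nonzero for `j, i > 0`), and `ev3_inj`.

`posM` (family `m = D, k = 0, a = 0, b = -D`, so `x ↦ B^(-D) A^j`, `z ↦ A^i B^D`, `y ↦ B`): the same symbolic forms with
the invariant: every syllable has `t ≤ s + 1` and `0 < s + t`, and the first syllable `(e, (s, t))` has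
(`t ≤ s` and `-D ≤ e`) or (`0 ≤ e`). Kept by `y` (e + 1), by `x` (`A^j` in front: new syllable `(1, 0)`, or
`(s + 1, t)` if `e = 0`; then `B^(-D)`), by `z` (`B^D` first: `e + D`, which is `0` only in the first case and then
`t ≤ s`; then `(0, 1)` in front or `(s, t + 1)`). For `j ≥ 3`, `i = -1`: `s j - t ≠ 0` (`s = 0`: `t = 1`;
`s ≥ 1`: `s j - t ≥ 3 s - s - 1 ≥ 1`). Two types with `j * i' ≠ j' * i` determine `s, t` from `s j + t i`.
-/

set_option autoImplicit false

namespace Pool.Agent.H70.WE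

/-- symbolic syllables -/
private abbrev SList : Type := List (ℤ × (ℕ × ℕ))

/-- the syllable at the type `(j, i)` -/
private def phi (j i : ℤ) (p : ℤ × (ℕ × ℕ)) : ℤ × ℤ := (p.1, p.2.1 * j + p.2.2 * i)

/-- value of a symbolic form at the type `(j, i)` -/
private def vs (j i : ℤ) (S : SList × ℤ) : G2 := ev3 (S.1.map (phi j i)) S.2

/-- left multiplication by `B^c` -/
private def addB (c : ℤ) : SList × ℤ → SList × ℤ
  | ([], f) => ([], c + f)
  | (p :: S, f) => ((c + p.1, p.2) :: S, f)

/-- left multiplication by the syllable `(s, t)` -/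
private def addA (s t : ℕ) : SList × ℤ → SList × ℤ
  | ([], f) => ([(0, (s, t))], f)
  | (p :: S, f) => if p.1 = 0 then ((0, (s + p.2.1, t + p.2.2)) :: S, f)
      else ((0, (s, t)) :: p :: S, f)

/-- symbolic goodness -/
private def SGood (S : SList) : Prop := (∀ p ∈ S, 0 < p.2.1 + p.2.2) ∧ ∀ p ∈ S.tail, p.1 ≠ 0

private theorem vs_addB (j i : ℤ) (c : ℤ) (S : SList × ℤ) :
    vs j i (addB c S) = gB ^ c * vs j i S := by
  obtain ⟨S, f⟩ := S
  cases S with
  | nil => simp [vs, addB, ev3, zpow_add]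
  | cons p S => simp [vs, addB, ev3, phi, zpow_add, mul_assoc]

private theorem vs_addA (j i : ℤ) (s t : ℕ) (S : SList × ℤ) :
    vs j i (addA s t S) = gA ^ ((s : ℤ) * j + t * i) * vs j i S := by
  obtain ⟨S, f⟩ := S
  cases S with
  | nil => simp [vs, addA, ev3, phi]
  | cons p S =>
    by_cases h : p.1 = 0
    · have e1 : ((s + p.2.1 : ℕ) : ℤ) * j + ((t + p.2.2 : ℕ) : ℤ) * i =
          ((s : ℤ) * j + t * i) + ((p.2.1 : ℤ) * j + p.2.2 * i) := by
        push_cast
        ring
      simp only [vs, addA, ev3, phi, h, if_true, List.map_cons, e1, zpow_add, zpow_zero, one_mul, mul_assoc]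
    · simp [vs, addA, ev3, phi, h, mul_assoc]

private theorem good_addB (c : ℤ) (S : SList × ℤ) (h : SGood S.1) : SGood (addB c S).1 := by
  obtain ⟨S, f⟩ := S
  cases S with
  | nil => exact h
  | cons p S =>
    refine ⟨fun q hq => ?_, h.2⟩
    simp only [addB, List.mem_cons] at hq
    rcases hq with rfl | hq
    · exact h.1 p (by simp)
    · exact h.1 q (by simp [hq])

private theorem good_addA (s t : ℕ) (hst : 0 < s + t) (S : SList × ℤ) (h : SGood S.1) :
    SGood (addA s t S).1 := by
  obtain ⟨S, f⟩ := S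
  cases S with
  | nil =>
    refine ⟨fun q hq => ?_, fun q hq => ?_⟩
    · simp only [addA, List.mem_cons, List.not_mem_nil, or_false] at hq
      subst hq
      exact hst
    · simp [addA] at hq
  | cons p S =>
    have hp : 0 < p.2.1 + p.2.2 := h.1 p (by simp)
    by_cases h0 : p.1 = 0
    · refine ⟨fun q hq => ?_, fun q hq => ?_⟩
      · simp only [addA, h0, if_true, List.mem_cons] at hq
        rcases hq with rfl | hq
        · show 0 < (s + p.2.1) + (t + p.2.2)
          omega
        · exact h.1 q (by simp [hq])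
      · simp only [addA, h0, if_true, List.tail_cons] at hq
        exact h.2 q (by simpa using hq)
    · refine ⟨fun q hq => ?_, fun q hq => ?_⟩
      · simp only [addA, h0, if_false, List.mem_cons] at hq
        rcases hq with rfl | rfl | hq
        · exact hst
        · exact hp
        · exact h.1 q (by simp [hq])
      · simp only [addA, h0, if_false, List.tail_cons, List.mem_cons] at hq
        rcases hq with rfl | hq
        · exact h0
        · exact h.2 q (by simpa using hq)

/-- one letter -/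
private def step (m k a b : ℤ) (c : Fin 3) (S : SList × ℤ) : SList × ℤ :=
  if c = 0 then addB (-m) (addA 1 0 (addB (-k) S))
  else if c = 1 then addB 1 S
  else addB (-a) (addA 0 1 (addB (-b) S))

/-- the symbolic form of a word -/
private def nf (m k a b : ℤ) (U : List (Fin 3)) : SList × ℤ :=
  U.foldr (step m k a b) ([], 0)

private theorem vs_step (m k a b j i : ℤ) (c : Fin 3) (S : SList × ℤ) :
    vs j i (step m k a b c S) = gz m k a b j i c * vs j i S := by
  fin_cases c
  · simp [step, vs_addB, vs_addA, gz, mul_assoc]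
  · simp [step, vs_addB, gz]
  · simp [step, vs_addB, vs_addA, gz, mul_assoc]

private theorem vs_nf (m k a b j i : ℤ) (U : List (Fin 3)) :
    vs j i (nf m k a b U) = gzv m k a b j i U := by
  induction U with
  | nil => simp [nf, vs, ev3, gzv]
  | cons c U ih =>
    have e1 : nf m k a b (c :: U) = step m k a b c (nf m k a b U) := rfl
    rw [e1, vs_step, ih]
    simp [gzv]

private theorem good_nf (m k a b : ℤ) (U : List (Fin 3)) : SGood (nf m k a b U).1 := by
  induction U with
  | nil =>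
    refine ⟨fun q hq => ?_, fun q hq => ?_⟩
    · simp [nf] at hq
    · simp [nf] at hq
  | cons c U ih =>
    have e1 : nf m k a b (c :: U) = step m k a b c (nf m k a b U) := rfl
    rw [e1]
    unfold step
    split_ifs
    · exact good_addB _ _ (good_addA _ _ (by norm_num) _ (good_addB _ _ ih))
    · exact good_addB _ _ ih
    · exact good_addB _ _ (good_addA _ _ (by norm_num) _ (good_addB _ _ ih))

private theorem good_map {j i : ℤ} (hj : 0 < j) (hi : 0 < i) {S : SList} (h : SGood S) :
    Good3 (S.map (phi j i)) := by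
  refine ⟨fun q hq => ?_, fun q hq => ?_⟩
  · obtain ⟨p, hp, rfl⟩ := List.mem_map.1 hq
    have h1 := h.1 p hp
    show (p.2.1 : ℤ) * j + p.2.2 * i ≠ 0
    have h4 : (0 : ℤ) ≤ (p.2.1 : ℤ) * j := by positivity
    have h5 : (0 : ℤ) ≤ (p.2.2 : ℤ) * i := by positivity
    rcases Nat.eq_zero_or_pos p.2.1 with h2 | h2
    · have h3 : 0 < p.2.2 := by omega
      have h6 : (0 : ℤ) < (p.2.2 : ℤ) * i := by positivity
      omega
    · have h6 : (0 : ℤ) < (p.2.1 : ℤ) * j := by positivity
      omega
  · rw [← List.map_tail] at hq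
    obtain ⟨p, hp, rfl⟩ := List.mem_map.1 hq
    exact h.2 p hp

private theorem phi_inj {j i j' i' : ℤ} (hne : j * i' ≠ j' * i) {p q : ℤ × (ℕ × ℕ)}
    (h1 : phi j i p = phi j i q) (h2 : phi j' i' p = phi j' i' q) : p = q := by
  obtain ⟨e, s, t⟩ := p
  obtain ⟨e', s', t'⟩ := q
  simp only [phi, Prod.mk.injEq] at h1 h2
  obtain ⟨he, g1⟩ := h1
  obtain ⟨-, g2⟩ := h2
  have hd : j * i' - j' * i ≠ 0 := by
    intro h
    apply hne
    linarith
  have hs : ((s : ℤ) - s') * (j * i' - j' * i) = 0 := by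
    linear_combination i' * g1 - i * g2
  have ht : ((t : ℤ) - t') * (j * i' - j' * i) = 0 := by
    linear_combination j * g2 - j' * g1
  have hs' : (s : ℤ) = s' := by
    rcases mul_eq_zero.1 hs with h | h
    · linarith
    · exact absurd h hd
  have ht' : (t : ℤ) = t' := by
    rcases mul_eq_zero.1 ht with h | h
    · linarith
    · exact absurd h hd
  have hs'' : s = s' := by exact_mod_cast hs'
  have ht'' : t = t' := by exact_mod_cast ht'
  rw [he, hs'', ht'']

private theorem map_inj2 {j i j' i' : ℤ} (hne : j * i' ≠ j' * i) :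
    ∀ {S T : SList}, S.map (phi j i) = T.map (phi j i) → S.map (phi j' i') = T.map (phi j' i') →
      S = T
  | [], [], _, _ => rfl
  | [], _ :: _, h, _ => by simp at h
  | _ :: _, [], h, _ => by simp at h
  | p :: S, q :: T, h1, h2 => by
    simp only [List.map_cons, List.cons.injEq] at h1 h2
    rw [phi_inj hne h1.1 h2.1, map_inj2 hne h1.2 h2.2]

theorem posP {m k a b j i j' i' : ℤ} (hj : 0 < j) (hi : 0 < i) (hj' : 0 < j') (hi' : 0 < i')
    (hne : j * i' ≠ j' * i) (E : List (Fin 3) × List (Fin 3)) (h1 : EqZ m k a b j i E)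
    (h2 : EqZ m k a b j' i' E) (j'' i'' : ℤ) : EqZ m k a b j'' i'' E := by
  have e1 : vs j i (nf m k a b E.1) = vs j i (nf m k a b E.2) := by
    rw [vs_nf, vs_nf]
    exact h1
  have e2 : vs j' i' (nf m k a b E.1) = vs j' i' (nf m k a b E.2) := by
    rw [vs_nf, vs_nf]
    exact h2
  have k1 := ev3_inj (good_map hj hi (good_nf m k a b E.1)) (good_map hj hi (good_nf m k a b E.2)) e1
  have k2 := ev3_inj (good_map hj' hi' (good_nf m k a b E.1))
    (good_map hj' hi' (good_nf m k a b E.2)) e2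
  have k3 : nf m k a b E.1 = nf m k a b E.2 :=
    Prod.ext (map_inj2 hne k1.1 k2.1) k1.2
  have k4 : vs j'' i'' (nf m k a b E.1) = vs j'' i'' (nf m k a b E.2) := by rw [k3]
  rw [vs_nf, vs_nf] at k4
  exact k4

/-- symbolic syllables -/
private abbrev MList : Type := List (ℤ × (ℕ × ℕ))

/-- the syllable at the type `(j, i)` -/
private def mphi (j i : ℤ) (p : ℤ × (ℕ × ℕ)) : ℤ × ℤ := (p.1, p.2.1 * j + p.2.2 * i)

/-- value of a symbolic form at the type `(j, i)` -/
private def mvs (j i : ℤ) (S : MList × ℤ) : G2 := ev3 (S.1.map (mphi j i)) S.2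

/-- left multiplication by `B^c` -/
private def maddB (c : ℤ) : MList × ℤ → MList × ℤ
  | ([], f) => ([], c + f)
  | (p :: S, f) => ((c + p.1, p.2) :: S, f)

/-- left multiplication by the syllable `(s, t)` -/
private def maddA (s t : ℕ) : MList × ℤ → MList × ℤ
  | ([], f) => ([(0, (s, t))], f)
  | (p :: S, f) => if p.1 = 0 then ((0, (s + p.2.1, t + p.2.2)) :: S, f)
      else ((0, (s, t)) :: p :: S, f)

/-- the first syllable -/
private def MFst (D : ℤ) : MList → Prop
  | [] => True
  | p :: _ => (p.2.2 ≤ p.2.1 ∧ -D ≤ p.1) ∨ 0 ≤ p.1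

/-- the invariant -/
private def MInv (D : ℤ) (S : MList) : Prop :=
  (∀ p ∈ S, 0 < p.2.1 + p.2.2 ∧ p.2.2 ≤ p.2.1 + 1) ∧ (∀ p ∈ S.tail, p.1 ≠ 0) ∧ MFst D S

private theorem mvs_addB (j i : ℤ) (c : ℤ) (S : MList × ℤ) :
    mvs j i (maddB c S) = gB ^ c * mvs j i S := by
  obtain ⟨S, f⟩ := S
  cases S with
  | nil => simp [mvs, maddB, ev3, zpow_add]
  | cons p S => simp [mvs, maddB, ev3, mphi, zpow_add, mul_assoc]

private theorem mvs_addA (j i : ℤ) (s t : ℕ) (S : MList × ℤ) :
    mvs j i (maddA s t S) = gA ^ ((s : ℤ) * j + t * i) * mvs j i S := by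
  obtain ⟨S, f⟩ := S
  cases S with
  | nil => simp [mvs, maddA, ev3, mphi]
  | cons p S =>
    by_cases h : p.1 = 0
    · have e1 : (((s + p.2.1 : ℕ) : ℤ)) * j + ((t + p.2.2 : ℕ) : ℤ) * i =
          ((s : ℤ) * j + t * i) + ((p.2.1 : ℤ) * j + p.2.2 * i) := by
        push_cast
        ring
      have e2 : mvs j i (maddA s t (p :: S, f)) =
          gB ^ (0 : ℤ) * gA ^ ((((s + p.2.1 : ℕ) : ℤ)) * j + ((t + p.2.2 : ℕ) : ℤ) * i) *
            ev3 (S.map (mphi j i)) f := by
        simp only [mvs, maddA, h, if_true, List.map_cons, ev3, mphi]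
      have e3 : mvs j i (p :: S, f) =
          gB ^ (0 : ℤ) * gA ^ ((p.2.1 : ℤ) * j + p.2.2 * i) * ev3 (S.map (mphi j i)) f := by
        simp only [mvs, List.map_cons, ev3, mphi, h]
      rw [e2, e3, e1, zpow_add]
      simp only [zpow_zero, one_mul, mul_assoc]
    · simp [mvs, maddA, ev3, mphi, h, mul_assoc]

/-- one letter -/
private def mstep (D : ℤ) (c : Fin 3) (S : MList × ℤ) : MList × ℤ :=
  if c = 0 then maddB (-D) (maddA 1 0 S)
  else if c = 1 then maddB 1 S
  else maddA 0 1 (maddB D S)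

/-- the symbolic form of a word -/
private def mnf (D : ℤ) (U : List (Fin 3)) : MList × ℤ :=
  U.foldr (mstep D) ([], 0)

private theorem mvs_step (D j i : ℤ) (c : Fin 3) (S : MList × ℤ) :
    mvs j i (mstep D c S) = gz D 0 0 (-D) j i c * mvs j i S := by
  fin_cases c
  · simp [mstep, mvs_addB, mvs_addA, gz, mul_assoc]
  · simp [mstep, mvs_addB, gz]
  · simp [mstep, mvs_addB, mvs_addA, gz, mul_assoc]

private theorem mvs_nf (D j i : ℤ) (U : List (Fin 3)) :
    mvs j i (mnf D U) = gzv D 0 0 (-D) j i U := by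
  induction U with
  | nil => simp [mnf, mvs, ev3, gzv]
  | cons c U ih =>
    have e1 : mnf D (c :: U) = mstep D c (mnf D U) := rfl
    rw [e1, mvs_step, ih]
    simp [gzv]

private theorem minv_y {D : ℤ} (S : MList × ℤ) (h : MInv D S.1) : MInv D (maddB 1 S).1 := by
  obtain ⟨S, f⟩ := S
  cases S with
  | nil => exact h
  | cons p S =>
    obtain ⟨h1, h2, h3⟩ := h
    refine ⟨fun q hq => ?_, h2, ?_⟩
    · simp only [maddB, List.mem_cons] at hq
      rcases hq with rfl | hq
      · exact h1 p (by simp)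
      · exact h1 q (by simp [hq])
    · have h3' : (p.2.2 ≤ p.2.1 ∧ -D ≤ p.1) ∨ 0 ≤ p.1 := h3
      show (p.2.2 ≤ p.2.1 ∧ -D ≤ 1 + p.1) ∨ 0 ≤ 1 + p.1
      omega

private theorem minv_x {D : ℤ} (S : MList × ℤ) (h : MInv D S.1) : MInv D (maddB (-D) (maddA 1 0 S)).1 := by
  obtain ⟨S, f⟩ := S
  cases S with
  | nil =>
    refine ⟨fun q hq => ?_, fun q hq => ?_, ?_⟩
    · simp only [maddA, maddB, List.mem_cons, List.not_mem_nil, or_false] at hq
      subst hq
      constructor <;> norm_num
    · simp [maddA, maddB] at hq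
    · left
      simp
  | cons p S =>
    obtain ⟨h1, h2, h3⟩ := h
    have hp := h1 p (by simp)
    by_cases h0 : p.1 = 0
    · have e : (maddB (-D) (maddA 1 0 (p :: S, f))).1 = (-D + 0, (1 + p.2.1, 0 + p.2.2)) :: S := by
        simp only [maddA, h0, if_true, maddB]
      rw [e]
      refine ⟨fun q hq => ?_, fun q hq => ?_, ?_⟩
      · rw [List.mem_cons] at hq
        rcases hq with rfl | hq
        · show 0 < (1 + p.2.1) + (0 + p.2.2) ∧ 0 + p.2.2 ≤ (1 + p.2.1) + 1
          omega
        · exact h1 q (by simp [hq])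
      · exact h2 q (by simpa using hq)
      · show (0 + p.2.2 ≤ 1 + p.2.1 ∧ -D ≤ -D + 0) ∨ 0 ≤ -D + 0
        omega
    · have e : (maddB (-D) (maddA 1 0 (p :: S, f))).1 = (-D + 0, (1, 0)) :: p :: S := by
        simp only [maddA, h0, if_false, maddB]
      rw [e]
      refine ⟨fun q hq => ?_, fun q hq => ?_, ?_⟩
      · rw [List.mem_cons] at hq
        rcases hq with rfl | hq
        · show 0 < 1 + 0 ∧ 0 ≤ 1 + 1
          omega
        · exact h1 q hq
      · rw [List.tail_cons, List.mem_cons] at hq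
        rcases hq with rfl | hq
        · exact h0
        · exact h2 q (by simpa using hq)
      · show (0 ≤ 1 ∧ -D ≤ -D + 0) ∨ 0 ≤ -D + 0
        omega

private theorem minv_z {D : ℤ} (hD : 1 ≤ D) (S : MList × ℤ) (h : MInv D S.1) :
    MInv D (maddA 0 1 (maddB D S)).1 := by
  obtain ⟨S, f⟩ := S
  cases S with
  | nil =>
    refine ⟨fun q hq => ?_, fun q hq => ?_, ?_⟩
    · simp only [maddA, maddB, List.mem_cons, List.not_mem_nil, or_false] at hq
      subst hq
      constructor <;> norm_num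
    · simp [maddA, maddB] at hq
    · right
      simp
  | cons p S =>
    obtain ⟨h1, h2, h3⟩ := h
    have hp := h1 p (by simp)
    have h3' : (p.2.2 ≤ p.2.1 ∧ -D ≤ p.1) ∨ 0 ≤ p.1 := h3
    by_cases h0 : D + p.1 = 0
    · have e : (maddA 0 1 (maddB D (p :: S, f))).1 = (0, (0 + p.2.1, 1 + p.2.2)) :: S := by
        simp only [maddA, h0, if_true, maddB]
      rw [e]
      refine ⟨fun q hq => ?_, fun q hq => ?_, ?_⟩
      · rw [List.mem_cons] at hq
        rcases hq with rfl | hq
        · show 0 < (0 + p.2.1) + (1 + p.2.2) ∧ 1 + p.2.2 ≤ (0 + p.2.1) + 1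
          omega
        · exact h1 q (by simp [hq])
      · exact h2 q (by simpa using hq)
      · right
        exact le_refl _
    · have e : (maddA 0 1 (maddB D (p :: S, f))).1 = (0, (0, 1)) :: (D + p.1, p.2) :: S := by
        simp only [maddA, h0, if_false, maddB]
      rw [e]
      refine ⟨fun q hq => ?_, fun q hq => ?_, ?_⟩
      · rw [List.mem_cons, List.mem_cons] at hq
        rcases hq with rfl | rfl | hq
        · show 0 < 0 + 1 ∧ 1 ≤ 0 + 1
          omega
        · exact hp
        · exact h1 q (by simp [hq])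
      · rw [List.tail_cons, List.mem_cons] at hq
        rcases hq with rfl | hq
        · exact h0
        · exact h2 q (by simpa using hq)
      · right
        exact le_refl _

private theorem minv_nf {D : ℤ} (hD : 1 ≤ D) (U : List (Fin 3)) : MInv D (mnf D U).1 := by
  induction U with
  | nil =>
    refine ⟨fun q hq => ?_, fun q hq => ?_, ?_⟩
    · simp [mnf] at hq
    · simp [mnf] at hq
    · trivial
  | cons c U ih =>
    have e1 : mnf D (c :: U) = mstep D c (mnf D U) := rfl
    rw [e1]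
    unfold mstep
    split_ifs
    · exact minv_x _ ih
    · exact minv_y _ ih
    · exact minv_z hD _ ih

private theorem mgood {D j i : ℤ} (hg : Gen j i) {S : MList} (h : MInv D S) :
    Good3 (S.map (mphi j i)) := by
  refine ⟨fun q hq => ?_, fun q hq => ?_⟩
  · obtain ⟨p, hp, rfl⟩ := List.mem_map.1 hq
    obtain ⟨h1, h2⟩ := h.1 p hp
    show (p.2.1 : ℤ) * j + p.2.2 * i ≠ 0
    obtain ⟨e, s, t⟩ := p
    simp only at h1 h2 ⊢
    rcases hg with ⟨hj, hi⟩ | ⟨hj, rfl⟩
    · rcases Nat.eq_zero_or_pos s with h3 | h3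
      · have h4 : (0 : ℤ) < t := by exact_mod_cast (by omega : 0 < t)
        have h5 : 0 < (t : ℤ) * i := mul_pos h4 hi
        rw [h3]
        push_cast
        omega
      · have h4 : (0 : ℤ) < s := by exact_mod_cast h3
        have h5 : 0 < (s : ℤ) * j := mul_pos h4 hj
        have h6 : 0 ≤ (t : ℤ) * i := mul_nonneg (by positivity) hi.le
        omega
    · rcases Nat.eq_zero_or_pos s with h3 | h3
      · rw [h3]
        push_cast
        have h4 : (1 : ℤ) ≤ t := by exact_mod_cast (by omega : 1 ≤ t)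
        omega
      · have h4 : (1 : ℤ) ≤ s := by exact_mod_cast h3
        have h5 : (t : ℤ) ≤ s + 1 := by exact_mod_cast h2
        have h6 : (s : ℤ) * 3 ≤ s * j := mul_le_mul_of_nonneg_left hj (by omega)
        omega
  · rw [← List.map_tail] at hq
    obtain ⟨p, hp, rfl⟩ := List.mem_map.1 hq
    exact h.2.1 p hp

private theorem mphi_inj {j i j' i' : ℤ} (hne : j * i' ≠ j' * i) {p q : ℤ × (ℕ × ℕ)}
    (h1 : mphi j i p = mphi j i q) (h2 : mphi j' i' p = mphi j' i' q) : p = q := by
  obtain ⟨e, s, t⟩ := p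
  obtain ⟨e', s', t'⟩ := q
  simp only [mphi, Prod.mk.injEq] at h1 h2
  obtain ⟨he, g1⟩ := h1
  obtain ⟨-, g2⟩ := h2
  have hd : j * i' - j' * i ≠ 0 := by
    intro h
    apply hne
    linarith
  have hs : ((s : ℤ) - s') * (j * i' - j' * i) = 0 := by
    linear_combination i' * g1 - i * g2
  have ht : ((t : ℤ) - t') * (j * i' - j' * i) = 0 := by
    linear_combination j * g2 - j' * g1
  have hs' : (s : ℤ) = s' := by
    rcases mul_eq_zero.1 hs with h | h
    · linarith
    · exact absurd h hd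
  have ht' : (t : ℤ) = t' := by
    rcases mul_eq_zero.1 ht with h | h
    · linarith
    · exact absurd h hd
  have hs'' : s = s' := by exact_mod_cast hs'
  have ht'' : t = t' := by exact_mod_cast ht'
  rw [he, hs'', ht'']

private theorem mmap_inj {j i j' i' : ℤ} (hne : j * i' ≠ j' * i) :
    ∀ {S T : MList}, S.map (mphi j i) = T.map (mphi j i) → S.map (mphi j' i') = T.map (mphi j' i') →
      S = T
  | [], [], _, _ => rfl
  | [], _ :: _, h, _ => by simp at h
  | _ :: _, [], h, _ => by simp at h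
  | p :: S, q :: T, h1, h2 => by
    simp only [List.map_cons, List.cons.injEq] at h1 h2
    rw [mphi_inj hne h1.1 h2.1, mmap_inj hne h1.2 h2.2]

theorem posM {D : ℤ} (hD : 1 ≤ D) {j i j' i' : ℤ} (h : Gen j i) (h' : Gen j' i')
    (hne : j * i' ≠ j' * i) (E : List (Fin 3) × List (Fin 3)) (h1 : EqZ D 0 0 (-D) j i E)
    (h2 : EqZ D 0 0 (-D) j' i' E) (j'' i'' : ℤ) : EqZ D 0 0 (-D) j'' i'' E := by
  have e1 : mvs j i (mnf D E.1) = mvs j i (mnf D E.2) := by
    rw [mvs_nf, mvs_nf]
    exact h1
  have e2 : mvs j' i' (mnf D E.1) = mvs j' i' (mnf D E.2) := by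
    rw [mvs_nf, mvs_nf]
    exact h2
  have k1 := ev3_inj (mgood h (minv_nf hD E.1)) (mgood h (minv_nf hD E.2)) e1
  have k2 := ev3_inj (mgood h' (minv_nf hD E.1)) (mgood h' (minv_nf hD E.2)) e2
  have k3 : mnf D E.1 = mnf D E.2 := Prod.ext (mmap_inj hne k1.1 k2.1) k1.2
  have k4 : mvs j'' i'' (mnf D E.1) = mvs j'' i'' (mnf D E.2) := by rw [k3]
  rw [mvs_nf, mvs_nf] at k4
  exact k4

end Pool.Agent.H70.WE
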