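import Pool.Agent.H70.WX.Defs

/-!
# [H70 WX Spec] The types `(1, 0)` and `(2, -1)` of the exceptional family

`x ↦ B^(-D) A^j`, `z ↦ A^i B^D`, `y ↦ B`, `D ≥ 1`. At `(1, 0)`: `z = y^D`, `x, y` free, so `E.1` and `E.2` become equal
words after `z → y^D` (morphism `fw`). At `(2, -1)`: with `a = true`, `b = false` the morphism is `z → a`, `y → aba`,
`x → b (aab)^(D-1)` (morphism `ww`), `A → al = a ww(x)`, `al a = (aba)^D`.

CLAIM (`main`), for `n : ℕ` and words `R, R'` with `fw R = fw R'` and `al^n ww R = ww R'`: for all `(j, i)` the values `v`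
at `(j, i)` satisfy `v R = A^(n i) v R'`. Strong induction on `|fw R| + #z R + #z R'`. `spec` is `n = 0`.
-/

set_option autoImplicit false

namespace Pool.Agent.H70.WE

open Pool.Agent.H93.TW

private def bt : List Bool := [true, false, true]

private def xw (D : ℕ) : List Bool := false :: pow [true, true, false] (D - 1)

private def al (D : ℕ) : List Bool := true :: xw D

private def ww (D : ℕ) : Fin 3 → List Bool := ![xw D, bt, [true]]

private def fw (D : ℕ) : Fin 3 → List Bool := ![[false], [true], List.replicate D true]

private theorem val_cons {α : Type} (h : Fin 3 → List α) (c : Fin 3) (U : List (Fin 3)) :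
    val h (c :: U) = h c ++ val h U := by
  unfold val
  rw [List.flatMap_cons]

private theorem ww0 (D : ℕ) (U : List (Fin 3)) : val (ww D) (0 :: U) = xw D ++ val (ww D) U :=
  val_cons _ _ _

private theorem ww1 (D : ℕ) (U : List (Fin 3)) : val (ww D) (1 :: U) = bt ++ val (ww D) U :=
  val_cons _ _ _

private theorem ww2 (D : ℕ) (U : List (Fin 3)) : val (ww D) (2 :: U) = true :: val (ww D) U :=
  val_cons _ _ _

private theorem fw0 (D : ℕ) (U : List (Fin 3)) : val (fw D) (0 :: U) = false :: val (fw D) U :=
  val_cons _ _ _

private theorem fw1 (D : ℕ) (U : List (Fin 3)) : val (fw D) (1 :: U) = true :: val (fw D) U :=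
  val_cons _ _ _

private theorem fw2 (D : ℕ) (U : List (Fin 3)) :
    val (fw D) (2 :: U) = List.replicate D true ++ val (fw D) U :=
  val_cons _ _ _

private theorem pow_succ' {α : Type} (w : List α) (n : ℕ) : pow w (n + 1) = w ++ pow w n := by
  rw [Nat.add_comm, pow_add']
  congr 1
  unfold pow
  simp

private theorem pow_succ'' {α : Type} (w : List α) (n : ℕ) : pow w (n + 1) = pow w n ++ w := by
  rw [pow_add']
  congr 1
  unfold pow
  simp

private theorem conj (d : ℕ) : pow [true, true, false] d ++ [true] = true :: pow bt d := by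
  induction d with
  | zero => rfl
  | succ d ih =>
    rw [pow_succ', List.append_assoc, ih, pow_succ']
    rfl

private theorem al_a {D : ℕ} (hD : 1 ≤ D) : al D ++ [true] = pow bt D := by
  obtain ⟨d, rfl⟩ : ∃ d, D = d + 1 := ⟨D - 1, by omega⟩
  unfold al xw
  rw [Nat.add_sub_cancel, List.cons_append, List.cons_append, conj, pow_succ']
  rfl

private theorem al_eq {D : ℕ} (hD : 1 ≤ D) : al D = pow bt (D - 1) ++ [true, false] := by
  have h1 := al_a hD
  obtain ⟨d, rfl⟩ : ∃ d, D = d + 1 := ⟨D - 1, by omega⟩
  rw [pow_succ''] at h1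
  rw [Nat.add_sub_cancel]
  have h2 : bt = [true, false] ++ [true] := rfl
  rw [h2, ← List.append_assoc, ← h2] at h1
  exact List.append_cancel_right h1

private theorem ww_y (D n : ℕ) (U : List (Fin 3)) :
    val (ww D) (List.replicate n 1 ++ U) = pow bt n ++ val (ww D) U := by
  rw [val_append, val_replicate]
  rfl

private theorem fw_y (D n : ℕ) (U : List (Fin 3)) :
    val (fw D) (List.replicate n 1 ++ U) = List.replicate n true ++ val (fw D) U := by
  induction n with
  | zero => rfl
  | succ n ih =>
    rw [List.replicate_succ, List.cons_append, fw1, ih]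
    rfl

private theorem ww_yx {D : ℕ} (hD : 1 ≤ D) (U : List (Fin 3)) :
    val (ww D) (List.replicate D 1 ++ 0 :: U) = al D ++ (al D ++ val (ww D) U) := by
  rw [ww_y, ww0, ← al_a hD, List.append_assoc]
  rfl

private theorem ww_zx (D : ℕ) (U : List (Fin 3)) :
    val (ww D) (2 :: 0 :: U) = al D ++ val (ww D) U := by
  rw [ww2, ww0]
  rfl

/-- a word whose value starts with `b` starts with `x` -/
private theorem ww_b {D : ℕ} {R : List (Fin 3)} {T : List Bool} (h : val (ww D) R = false :: T) :
    ∃ R1, R = 0 :: R1 := by
  rcases R with _ | ⟨c, R1⟩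
  · exact absurd h (by simp [val])
  · fin_cases c
    · exact ⟨R1, rfl⟩
    · have h1 := (ww1 D R1).symm.trans h
      exact absurd h1 (by simp [bt])
    · have h1 := (ww2 D R1).symm.trans h
      exact absurd h1 (by simp)

private theorem fw_x {D : ℕ} (hD : 1 ≤ D) (k : ℕ) (hk : k < D) : ∀ (R : List (Fin 3)) (T : List Bool),
    val (fw D) R = List.replicate k true ++ false :: T →
    ∃ R1, R = List.replicate k 1 ++ 0 :: R1 ∧ val (fw D) R1 = T := by
  induction k with
  | zero =>
    intro R T h
    rw [List.replicate_zero, List.nil_append] at h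
    rcases R with _ | ⟨c, R1⟩
    · exact absurd h (by simp [val])
    · fin_cases c
      · have h1 := (fw0 D R1).symm.trans h
        exact ⟨R1, rfl, (List.cons.inj h1).2⟩
      · have h1 := (fw1 D R1).symm.trans h
        exact absurd h1 (by simp)
      · have h1 := (fw2 D R1).symm.trans h
        obtain ⟨d, rfl⟩ : ∃ d, D = d + 1 := ⟨D - 1, by omega⟩
        rw [List.replicate_succ] at h1
        exact absurd h1 (by simp)
  | succ k ih =>
    intro R T h
    rcases R with _ | ⟨c, R1⟩
    · exact absurd h (by simp [val])
    · fin_cases c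
      · have h1 := (fw0 D R1).symm.trans h
        rw [List.replicate_succ] at h1
        exact absurd h1 (by simp)
      · have h1 := (fw1 D R1).symm.trans h
        rw [List.replicate_succ, List.cons_append] at h1
        obtain ⟨R2, h2, h3⟩ := ih (by omega) R1 T (List.cons.inj h1).2
        refine ⟨R2, ?_, h3⟩
        rw [h2, List.replicate_succ]
        rfl
      · have h1 := (fw2 D R1).symm.trans h
        obtain ⟨d, rfl⟩ : ∃ d, D = (k + 1) + (d + 1) := ⟨D - (k + 1) - 1, by omega⟩
        rw [List.replicate_add, List.append_assoc] at h1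
        have h2 := List.append_cancel_left h1
        rw [List.replicate_succ] at h2
        exact absurd h2 (by simp)

private theorem fw_yx {D : ℕ} (hD : 1 ≤ D) {R : List (Fin 3)} {T : List Bool}
    (h : val (fw D) (1 :: R) = List.replicate D true ++ false :: T) :
    ∃ R1, 1 :: R = List.replicate D 1 ++ 0 :: R1 ∧ val (fw D) R1 = T := by
  obtain ⟨d, rfl⟩ : ∃ d, D = d + 1 := ⟨D - 1, by omega⟩
  rw [fw1, List.replicate_succ, List.cons_append] at h
  obtain ⟨R1, h1, h2⟩ := fw_x hD d (by omega) R T (List.cons.inj h).2
  refine ⟨R1, ?_, h2⟩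
  rw [h1, List.replicate_succ]
  rfl

private theorem ww_x {D : ℕ} (hD : 1 ≤ D) (k : ℕ) (hk : k < D) : ∀ (R : List (Fin 3)) (T : List Bool),
    val (ww D) R = pow bt k ++ false :: T → ∃ R1, R = List.replicate k 1 ++ 0 :: R1 := by
  induction k with
  | zero =>
    intro R T h
    exact ww_b h
  | succ k ih =>
    intro R T h
    rw [pow_succ', List.append_assoc] at h
    rcases R with _ | ⟨c, R1⟩
    · exact absurd h (by simp [val, bt])
    · fin_cases c
      · have h1 := (ww0 D R1).symm.trans h
        exact absurd h1 (by simp [xw, bt])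
      · have h1 := (ww1 D R1).symm.trans h
        obtain ⟨R2, h2⟩ := ih (by omega) R1 T (List.append_cancel_left h1)
        refine ⟨R2, ?_⟩
        rw [h2, List.replicate_succ]
        rfl
      · have h1 := (ww2 D R1).symm.trans h
        have h2 : val (ww D) R1 = false :: ([true] ++ (pow bt k ++ false :: T)) := (List.cons.inj h1).2
        obtain ⟨R2, rfl⟩ := ww_b h2
        have h3 : al D ++ val (ww D) R2 = pow bt (k + 1) ++ false :: T := by
          rw [← ww_zx, pow_succ', List.append_assoc]
          exact h
        rw [al_eq hD] at h3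
        obtain ⟨d, hd⟩ : ∃ d, D - 1 = (k + 1) + d := ⟨D - 1 - (k + 1), by omega⟩
        rw [hd, pow_add', List.append_assoc, List.append_assoc] at h3
        have h4 := List.append_cancel_left h3
        rcases d with _ | d
        · rw [pow_zero'] at h4
          exact absurd h4 (by simp)
        · rw [pow_succ'] at h4
          exact absurd h4 (by simp [bt])

private theorem ww_yx' {D : ℕ} (hD : 1 ≤ D) {R : List (Fin 3)} {T : List Bool}
    (h : val (ww D) (1 :: R) = pow bt D ++ false :: T) : ∃ R1, 1 :: R = List.replicate D 1 ++ 0 :: R1 := by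
  obtain ⟨d, rfl⟩ : ∃ d, D = d + 1 := ⟨D - 1, by omega⟩
  rw [ww1, pow_succ', List.append_assoc] at h
  obtain ⟨R1, h1⟩ := ww_x hD d (by omega) R T (List.append_cancel_left h)
  refine ⟨R1, ?_⟩
  rw [h1, List.replicate_succ]
  rfl

private theorem start (D n : ℕ) (S : List Bool) :
    ∃ Q, pow (al D) n ++ (bt ++ S) = true :: false :: Q := by
  rcases n with _ | n
  · exact ⟨true :: S, rfl⟩
  · rw [pow_succ', List.append_assoc]
    exact ⟨_, rfl⟩

section values

variable (D : ℕ) (j i : ℤ)

private theorem v_cons (c : Fin 3) (U : List (Fin 3)) :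
    gzv D 0 0 (-(D : ℤ)) j i (c :: U) =
      gz D 0 0 (-(D : ℤ)) j i c * gzv D 0 0 (-(D : ℤ)) j i U := by
  unfold gzv
  rw [List.map_cons, List.prod_cons]

private theorem v_y (n : ℕ) (U : List (Fin 3)) :
    gzv D 0 0 (-(D : ℤ)) j i (List.replicate n 1 ++ U) = gB ^ n * gzv D 0 0 (-(D : ℤ)) j i U := by
  induction n with
  | zero => simp
  | succ n ih =>
    rw [List.replicate_succ, List.cons_append, v_cons, ih, _root_.pow_succ', mul_assoc]
    rfl

private theorem v_x (U : List (Fin 3)) :
    gzv D 0 0 (-(D : ℤ)) j i (0 :: U) = gB ^ (-(D : ℤ)) * gA ^ j * gzv D 0 0 (-(D : ℤ)) j i U := by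
  rw [v_cons]
  show gB ^ (-(D : ℤ)) * gA ^ j * gB ^ (-(0 : ℤ)) * _ = _
  simp

private theorem v_z (U : List (Fin 3)) :
    gzv D 0 0 (-(D : ℤ)) j i (2 :: U) = gA ^ i * gzv D 0 0 (-(D : ℤ)) j i (List.replicate D 1 ++ U) := by
  rw [v_cons, v_y]
  show gB ^ (-(0 : ℤ)) * gA ^ i * gB ^ (-(-(D : ℤ))) * _ = _
  simp [mul_assoc]

private theorem v_yx (U : List (Fin 3)) :
    gzv D 0 0 (-(D : ℤ)) j i (List.replicate D 1 ++ 0 :: U) = gA ^ j * gzv D 0 0 (-(D : ℤ)) j i U := by
  rw [v_y, v_x]
  simp [← mul_assoc]

private theorem v_zx (U : List (Fin 3)) :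
    gzv D 0 0 (-(D : ℤ)) j i (2 :: 0 :: U) = gA ^ (i + j) * gzv D 0 0 (-(D : ℤ)) j i U := by
  rw [v_z, v_yx, zpow_add, mul_assoc]

end values

private theorem len_pos {D : ℕ} (hD : 1 ≤ D) {R : List (Fin 3)} (h : val (fw D) R = []) : R = [] := by
  rcases R with _ | ⟨c, R1⟩
  · rfl
  · fin_cases c
    · exact absurd ((fw0 D R1).symm.trans h) (by simp)
    · exact absurd ((fw1 D R1).symm.trans h) (by simp)
    · have h1 := (fw2 D R1).symm.trans h
      obtain ⟨d, rfl⟩ : ∃ d, D = d + 1 := ⟨D - 1, by omega⟩
      exact absurd h1 (by simp)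

private theorem cnt_yx (D : ℕ) (U : List (Fin 3)) :
    (List.replicate D 1 ++ 0 :: U).count (2 : Fin 3) = U.count 2 := by
  rw [List.count_append, List.count_replicate, List.count_cons]
  simp

private theorem comm_al (D n : ℕ) (U : List Bool) :
    pow (al D) n ++ (al D ++ U) = al D ++ (pow (al D) n ++ U) := by
  rw [← List.append_assoc, ← pow_succ'', pow_succ', List.append_assoc]

private theorem main {D : ℕ} (hD : 1 ≤ D) (j i : ℤ) (N : ℕ) : ∀ (n : ℕ) (R R' : List (Fin 3)),
    (val (fw D) R).length + R.count 2 + R'.count 2 = N →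
    val (fw D) R = val (fw D) R' → pow (al D) n ++ val (ww D) R = val (ww D) R' →
    gzv D 0 0 (-(D : ℤ)) j i R = gA ^ ((n : ℤ) * i) * gzv D 0 0 (-(D : ℤ)) j i R' := by
  induction N using Nat.strong_induction_on with
  | _ N ih =>
    intro n R R' hN hf hw
    -- `y..` against `z..`
    have key : ∀ (m : ℕ) (P P' : List (Fin 3)),
        (val (fw D) (1 :: P)).length + (1 :: P).count 2 + (2 :: P').count 2 = N →
        val (fw D) (1 :: P) = val (fw D) (2 :: P') →
        pow (al D) m ++ val (ww D) (1 :: P) = val (ww D) (2 :: P') →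
        gzv D 0 0 (-(D : ℤ)) j i (1 :: P) =
          gA ^ ((m : ℤ) * i) * gzv D 0 0 (-(D : ℤ)) j i (2 :: P') := by
      intro m P P' hN hf hw
      have h1 := hw
      rw [ww1, ww2] at h1
      obtain ⟨Q, hQ⟩ := start D m (val (ww D) P)
      rw [hQ] at h1
      obtain ⟨P2', rfl⟩ := ww_b (List.cons.inj h1).2.symm
      have h2 : val (fw D) (1 :: P) = List.replicate D true ++ false :: val (fw D) P2' := by
        rw [hf, fw2, fw0]
      obtain ⟨P2, h3, h4⟩ := fw_yx hD h2
      rw [h3] at hw hN ⊢
      rw [ww_yx hD, ww_zx, comm_al] at hw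
      have h5 := List.append_cancel_left hw
      rw [cnt_yx, fw_y, fw0] at hN
      have h6 := ih _ (by
        rw [← hN]
        simp only [List.length_append, List.length_replicate, List.length_cons, List.count_cons]
        have : (2 : Fin 3) == 2 := by decide
        simp
        omega) (m + 1) P2 P2' rfl h4 (by rw [pow_succ'', List.append_assoc]; exact h5)
      rw [v_yx, v_zx, h6, ← mul_assoc, ← mul_assoc, ← zpow_add, ← zpow_add]
      congr 2
      push_cast
      ring
    have h3 : ∀ c : Fin 3, c = 0 ∨ c = 1 ∨ c = 2 := by decide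
    rcases R with _ | ⟨c, R1⟩
    · have h1 : R' = [] := len_pos hD (by rw [← hf]; rfl)
      subst h1
      rcases n with _ | n
      · simp
      · rw [pow_succ'] at hw
        exact absurd hw (by simp [val, al])
    · obtain rfl | rfl | rfl := h3 c
      · -- `R = x..`
        rw [fw0] at hf
        obtain ⟨R1', h1, h2⟩ := fw_x hD 0 (by omega) R' _ hf.symm
        rw [List.replicate_zero, List.nil_append] at h1
        subst h1
        rcases n with _ | n
        · rw [ww0, ww0] at hw
          have h4 := List.append_cancel_left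
            (show xw D ++ val (ww D) R1 = xw D ++ val (ww D) R1' from hw)
          rw [fw0] at hN
          have h5 := ih _ (by
            rw [← hN]
            simp only [List.length_cons, List.count_cons]
            omega) 0 R1 R1' rfl h2.symm h4
          rw [v_x, v_x, h5]
          simp
        · rw [pow_succ', ww0, ww0] at hw
          exact absurd hw (by simp [al, xw])
      · -- `R = y..`
        rcases R' with _ | ⟨c', R1'⟩
        · rw [fw1] at hf
          exact absurd hf (by simp [val])
        · obtain rfl | rfl | rfl := h3 c'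
          · rw [fw1, fw0] at hf
            exact absurd hf (by simp)
          · rcases n with _ | n
            · rw [ww1, ww1] at hw
              have h4 := List.append_cancel_left
                (show bt ++ val (ww D) R1 = bt ++ val (ww D) R1' from hw)
              rw [fw1, fw1] at hf
              rw [fw1] at hN
              have h5 := ih _ (by
                rw [← hN]
                simp only [List.length_cons, List.count_cons]
                omega) 0 R1 R1' rfl (List.cons.inj hf).2 h4
              rw [v_cons, v_cons, h5]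
              simp
            · obtain ⟨Q, hQ⟩ := start D n (val (ww D) R1)
              have h1 : val (ww D) (1 :: R1') = pow bt D ++ false :: Q := by
                rw [← hw, pow_succ', List.append_assoc, ww1, hQ, ← al_a hD, List.append_assoc]
                rfl
              obtain ⟨R2', h2⟩ := ww_yx' hD h1
              have h4 : val (fw D) (1 :: R1) = List.replicate D true ++ false :: val (fw D) R2' := by
                rw [hf, h2, fw_y, fw0]
              obtain ⟨R2, h5, h6⟩ := fw_yx hD h4
              rw [h2] at hw hN ⊢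
              rw [h5] at hw hN ⊢
              rw [ww_yx hD, ww_yx hD, comm_al, comm_al] at hw
              have h7 := List.append_cancel_left (List.append_cancel_left hw)
              rw [cnt_yx, cnt_yx, fw_y, fw0] at hN
              have h8 := ih _ (by
                rw [← hN]
                simp only [List.length_append, List.length_replicate, List.length_cons]
                omega) (n + 1) R2 R2' rfl h6 h7
              rw [v_yx, v_yx, h8, ← mul_assoc, ← mul_assoc, ← zpow_add, ← zpow_add]
              congr 2
              ring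
          · exact key n R1 R1' hN hf hw
      · -- `R = z..`
        rcases n with _ | n
        · rcases R' with _ | ⟨c', R1'⟩
          · have h1 := len_pos hD hf
            exact absurd h1 (by simp)
          · obtain rfl | rfl | rfl := h3 c'
            · rw [fw2, fw0] at hf
              obtain ⟨d, rfl⟩ : ∃ d, D = d + 1 := ⟨D - 1, by omega⟩
              rw [List.replicate_succ] at hf
              exact absurd hf (by simp)
            · have h4 := key 0 R1' R1 (by rw [← hf, ← hN]; omega) hf.symm hw.symm
              rw [h4]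
              simp
            · rw [ww2, ww2] at hw
              have h4 := (List.cons.inj (show true :: val (ww D) R1 = true :: val (ww D) R1' from hw)).2
              rw [fw2, fw2] at hf
              have h6 := List.append_cancel_left hf
              rw [fw2] at hN
              have h5 := ih _ (by
                rw [← hN]
                simp only [List.length_append, List.count_cons]
                simp
                omega) 0 R1 R1' rfl h6 h4
              rw [v_cons, v_cons, h5]
              simp
        · have h4 : pow (al D) n ++ val (ww D) (List.replicate D 1 ++ R1) = val (ww D) R' := by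
            rw [← hw, ww2, ww_y, ← al_a hD, pow_succ'', List.append_assoc, List.append_assoc]
            rfl
          have h5 : val (fw D) (List.replicate D 1 ++ R1) = val (fw D) R' := by
            rw [← hf, fw2, fw_y]
          have h6 := ih _ (by
            rw [← hN, h5, hf, List.count_append, List.count_replicate, List.count_cons]
            simp) n (List.replicate D 1 ++ R1) R' rfl h5 h4
          rw [v_z, h6, ← mul_assoc, ← zpow_add]
          congr 2
          push_cast
          ring

theorem spec {D : ℕ} (hD : 1 ≤ D) (E : List (Fin 3) × List (Fin 3)) (h1 : EqZ D 0 0 (-(D : ℤ)) 1 0 E)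
    (h2 : EqZ D 0 0 (-(D : ℤ)) 2 (-1) E) (j i : ℤ) : EqZ D 0 0 (-(D : ℤ)) j i E := by
  have hB : io (pow bt D) = io (al D) * FreeGroup.of true := by
    rw [← al_a hD, io_append]
    simp [io]
  have hB' : FreeGroup.of true = (io (al D))⁻¹ * io bt ^ D := by
    rw [← io_pow, hB, inv_mul_cancel_left]
  have hx : io (xw D) = (FreeGroup.of true)⁻¹ * io (al D) := by
    unfold al
    rw [io_cons, inv_mul_cancel_left]
  -- the type `(2, -1)`
  have e2 : ∀ U : List (Fin 3), io (val (ww D) U) = th (io (al D)) (io bt) (gzv D 0 0 (-(D : ℤ)) 2 (-1) U) := by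
    intro U
    induction U with
    | nil =>
      show io ([] : List Bool) = th _ _ 1
      rw [map_one]
      rfl
    | cons c U ih =>
      rw [val_cons, v_cons, io_append, map_mul, ih]
      congr 1
      fin_cases c
      · show io (xw D) = th _ _ (gB ^ (-(D : ℤ)) * gA ^ (2 : ℤ) * gB ^ (-(0 : ℤ)))
        rw [map_mul, map_mul, map_zpow, map_zpow, map_zpow, th_A, th_B, hx, hB', zpow_two]
        group
      · show io bt = th _ _ gB
        rw [th_B]
      · show io [true] = th _ _ (gB ^ (-(0 : ℤ)) * gA ^ (-1 : ℤ) * gB ^ (-(-(D : ℤ))))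
        rw [map_mul, map_mul, map_zpow, map_zpow, map_zpow, th_A, th_B, io_cons, io_nil, hB']
        group
  -- the type `(1, 0)`
  have e1 : ∀ U : List (Fin 3), io (val (fw D) U) =
      th (FreeGroup.of true ^ D * FreeGroup.of false) (FreeGroup.of true)
        (gzv D 0 0 (-(D : ℤ)) 1 0 U) := by
    intro U
    induction U with
    | nil =>
      show io ([] : List Bool) = th _ _ 1
      rw [map_one]
      rfl
    | cons c U ih =>
      rw [val_cons, v_cons, io_append, map_mul, ih]
      congr 1
      fin_cases c
      · show io [false] = th _ _ (gB ^ (-(D : ℤ)) * gA ^ (1 : ℤ) * gB ^ (-(0 : ℤ)))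
        rw [map_mul, map_mul, map_zpow, map_zpow, map_zpow, th_A, th_B, io_cons, io_nil]
        group
      · show io [true] = th _ _ gB
        rw [th_B, io_cons, io_nil, mul_one]
      · show io (List.replicate D true) = th _ _ (gB ^ (-(0 : ℤ)) * gA ^ (0 : ℤ) * gB ^ (-(-(D : ℤ))))
        rw [map_mul, map_mul, map_zpow, map_zpow, map_zpow, th_A, th_B]
        unfold io
        simp
  have f1 : val (fw D) E.1 = val (fw D) E.2 := by
    apply io_inj
    rw [e1, e1]
    exact congrArg _ h1
  have f2 : val (ww D) E.1 = val (ww D) E.2 := by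
    apply io_inj
    rw [e2, e2]
    exact congrArg _ h2
  have h := main hD j i _ 0 E.1 E.2 rfl f1 f2
  show gzv D 0 0 (-(D : ℤ)) j i E.1 = gzv D 0 0 (-(D : ℤ)) j i E.2
  rw [h]
  simp

end Pool.Agent.H70.WE
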