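import Pool.Agent.H70.WX.TypC
import Pool.Agent.H70.WX.Pos3
import Pool.Agent.H70.WX.Spec

/-!
# [H70 WX NpC] At most three non periodic witnesses after `y^(e+D) x y^b z = z y^e x y^(b+D)`
-/

set_option autoImplicit false

namespace Pool.Agent.H70.WE

private theorem crossZ {j i j' i' : ℤ} (hj : 0 < j) (hj' : 0 < j') (h : IsCoprime j i) (h' : IsCoprime j' i')
    (he : j * i' = j' * i) : j = j' ∧ i = i' := by
  have h1 : j ∣ j' := h.dvd_of_dvd_mul_right ⟨i', he.symm⟩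
  have h2 : j' ∣ j := h'.dvd_of_dvd_mul_right ⟨i, he⟩
  have h3 : j = j' := Int.dvd_antisymm hj.le hj'.le h1 h2
  subst h3
  exact ⟨rfl, (mul_left_cancel₀ hj.ne' he).symm⟩

/-- two generic types -/
private theorem two_gen {e b D : ℕ} (hD : 1 ≤ D) {j1 i1 j2 i2 : ℤ} {E : List (Fin 3) × List (Fin 3)}
    (h1 : AdmC e b j1 i1) (h2 : AdmC e b j2 i2) (g1 : Gen j1 i1) (g2 : Gen j2 i2)
    (n12 : ¬ (j1 = j2 ∧ i1 = i2))
    (e1 : EqZ ((e : ℤ) + D) b 0 (-(D : ℤ)) j1 i1 E) (e2 : EqZ ((e : ℤ) + D) b 0 (-(D : ℤ)) j2 i2 E) (j i : ℤ) :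
    EqZ ((e : ℤ) + D) b 0 (-(D : ℤ)) j i E := by
  have hne : j1 * i2 ≠ j2 * i1 := fun he => n12 (crossZ h1.1 h2.1 h1.2.1 h2.2.1 he)
  by_cases heb : e = 0 ∧ b = 0
  · obtain ⟨he, hb⟩ := heb
    subst he hb
    have hD' : (((0 : ℕ) : ℤ) + D) = (D : ℤ) := by simp
    rw [hD'] at e1 e2 ⊢
    exact posM (by exact_mod_cast hD) g1 g2 hne E e1 e2 j i
  · have p1 : 0 < i1 := by
      rcases g1 with g | g
      · exact g.2
      · rcases h1.2.2 with h | h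
        · omega
        · exact absurd ⟨h.1, h.2.1⟩ heb
    have p2 : 0 < i2 := by
      rcases g2 with g | g
      · exact g.2
      · rcases h2.2.2 with h | h
        · omega
        · exact absurd ⟨h.1, h.2.1⟩ heb
    exact posP h1.1 p1 h2.1 p2 hne E e1 e2 j i

/-- the types which are not generic -/
private theorem nongen {e b : ℕ} {j i : ℤ} (h : AdmC e b j i) (g : ¬ Gen j i) :
    (j = 1 ∧ i = 0) ∨ (j = 2 ∧ i = -1 ∧ e = 0 ∧ b = 0) := by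
  unfold Gen at g
  obtain ⟨hj, hc, h3⟩ := h
  rcases h3 with h3 | ⟨he, hb, hj2, hi⟩
  · left
    have hi : i = 0 := by
      by_contra hi
      exact g (Or.inl ⟨hj, lt_of_le_of_ne h3 (Ne.symm hi)⟩)
    subst hi
    have h4 := isCoprime_zero_right.1 hc
    rcases Int.isUnit_iff.1 h4 with h5 | h5
    · exact ⟨h5, rfl⟩
    · omega
  · right
    refine ⟨?_, hi, he, hb⟩
    by_contra hj3
    exact g (Or.inr ⟨by omega, hi⟩)

private theorem two_non {e b D : ℕ} (hD : 1 ≤ D) {j1 i1 j2 i2 : ℤ} {E : List (Fin 3) × List (Fin 3)}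
    (h1 : AdmC e b j1 i1) (h2 : AdmC e b j2 i2) (g1 : ¬ Gen j1 i1) (g2 : ¬ Gen j2 i2)
    (n12 : ¬ (j1 = j2 ∧ i1 = i2))
    (e1 : EqZ ((e : ℤ) + D) b 0 (-(D : ℤ)) j1 i1 E) (e2 : EqZ ((e : ℤ) + D) b 0 (-(D : ℤ)) j2 i2 E) (j i : ℤ) :
    EqZ ((e : ℤ) + D) b 0 (-(D : ℤ)) j i E := by
  rcases nongen h1 g1 with ⟨a1, a2⟩ | ⟨a1, a2, a3, a4⟩
  · rcases nongen h2 g2 with ⟨b1, b2⟩ | ⟨b1, b2, b3, b4⟩
    · exact absurd ⟨by rw [a1, b1], by rw [a2, b2]⟩ n12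
    · subst a1 a2 b1 b2 b3 b4
      have hD' : (((0 : ℕ) : ℤ) + D) = (D : ℤ) := by simp
      rw [hD'] at e1 e2 ⊢
      exact spec hD E e1 e2 j i
  · rcases nongen h2 g2 with ⟨b1, b2⟩ | ⟨b1, b2, b3, b4⟩
    · subst a1 a2 b1 b2 a3 a4
      have hD' : (((0 : ℕ) : ℤ) + D) = (D : ℤ) := by simp
      rw [hD'] at e1 e2 ⊢
      exact spec hD E e2 e1 j i
    · exact absurd ⟨by rw [a1, b1], by rw [a2, b2]⟩ n12

theorem three_typesC {e b D : ℕ} (hD : 1 ≤ D) {j1 i1 j2 i2 j3 i3 : ℤ} {E : List (Fin 3) × List (Fin 3)}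
    (h1 : AdmC e b j1 i1) (h2 : AdmC e b j2 i2) (h3 : AdmC e b j3 i3)
    (e1 : EqZ ((e : ℤ) + D) b 0 (-(D : ℤ)) j1 i1 E) (e2 : EqZ ((e : ℤ) + D) b 0 (-(D : ℤ)) j2 i2 E)
    (e3 : EqZ ((e : ℤ) + D) b 0 (-(D : ℤ)) j3 i3 E)
    (n12 : ¬ (j1 = j2 ∧ i1 = i2)) (n13 : ¬ (j1 = j3 ∧ i1 = i3)) (n23 : ¬ (j2 = j3 ∧ i2 = i3))
    (j i : ℤ) : EqZ ((e : ℤ) + D) b 0 (-(D : ℤ)) j i E := by
  by_cases g1 : Gen j1 i1
  · by_cases g2 : Gen j2 i2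
    · exact two_gen hD h1 h2 g1 g2 n12 e1 e2 j i
    · by_cases g3 : Gen j3 i3
      · exact two_gen hD h1 h3 g1 g3 n13 e1 e3 j i
      · exact two_non hD h2 h3 g2 g3 n23 e2 e3 j i
  · by_cases g2 : Gen j2 i2
    · by_cases g3 : Gen j3 i3
      · exact two_gen hD h2 h3 g2 g3 n23 e2 e3 j i
      · exact two_non hD h1 h3 g1 g3 n13 e1 e3 j i
    · exact two_non hD h1 h2 g1 g2 n12 e1 e2 j i

theorem npb_c_gen (e b D : ℕ) (hD : 1 ≤ D) (hx : ¬ (e = 0 ∧ b = 0 ∧ D = 1)) : NPB (cU e b D, cV e b D) := by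
  intro α E h hn hF hs hne
  have ht : ∀ i, ∃ t : ℤ × ℤ, AdmC e b t.1 t.2 ∧
      ∀ G : List (Fin 3) × List (Fin 3), Solves (h i) G ↔ EqZ ((e : ℤ) + D) b 0 (-(D : ℤ)) t.1 t.2 G := by
    intro i
    obtain ⟨j, i', h1, h2⟩ := typC e b D hD hx (h i) (hn i) (hF i)
    exact ⟨(j, i'), h1, h2⟩
  choose t hA hT using ht
  have hdist : ∀ i j, i < j → ¬ ((t i).1 = (t j).1 ∧ (t i).2 = (t j).2) := by
    rintro i j hij ⟨e1, e2⟩
    have h1 := (hT j (E i)).1 (hs j i hij)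
    rw [← e1, ← e2] at h1
    exact hne i ((hT i (E i)).2 h1)
  have h1 := (hT 1 (E 0)).1 (hs 1 0 (by decide))
  have h2 := (hT 2 (E 0)).1 (hs 2 0 (by decide))
  have h3 := (hT 3 (E 0)).1 (hs 3 0 (by decide))
  exact hne 0 ((hT 0 (E 0)).2 (three_typesC hD (hA 1) (hA 2) (hA 3) h1 h2 h3 (hdist 1 2 (by decide))
    (hdist 1 3 (by decide)) (hdist 2 3 (by decide)) _ _))

theorem npb_c (e b D : ℕ) (hD : 1 ≤ D) : NPB (cU e b D, cV e b D) := by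
  by_cases hx : e = 0 ∧ b = 0 ∧ D = 1
  · obtain ⟨he, hb, hd⟩ := hx
    subst he hb hd
    have h1 := (npb_comm 0 1 0 1).ren (Equiv.swap 0 1)
    have h2 : WE.ren (Equiv.swap 0 1) (pw 0 1 ++ qw 0 1, qw 0 1 ++ pw 0 1) = ([1, 0, 2, 0], [2, 0, 1, 0]) := by
      decide
    rw [h2] at h1
    refine h1.mono (fun α h hs => ?_)
    have hs' : val h [1, 0, 2] = val h [2, 0, 1] := hs
    show val h ([1, 0, 2] ++ [0]) = val h ([2, 0, 1] ++ [0])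
    rw [val_append, val_append, hs']
  · exact npb_c_gen e b D hD hx

end Pool.Agent.H70.WE
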