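import Pool.Agent.H70.WX.Defs

/-!
# [H70 WX One] One unknown: `y^a x y^b = y^c x y^d` (from `rel_comm`)
-/

set_option autoImplicit false

namespace Pool.Agent.H70.WE
private theorem one_inj : ∀ (a b c d : ℕ),
    List.replicate a false ++ true :: List.replicate b false =
      List.replicate c false ++ true :: List.replicate d false → a = c ∧ b = d := by
  intro a
  induction a with
  | zero =>
    intro b c d h
    cases c with
    | zero =>
      refine ⟨rfl, ?_⟩
      simpa using h
    | succ c =>
      rw [List.replicate_succ] at h
      simp at h
  | succ a ih =>
    intro b c d h
    cases c with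
    | zero =>
      rw [List.replicate_succ] at h
      simp at h
    | succ c =>
      rw [List.replicate_succ, List.replicate_succ, List.cons_append, List.cons_append] at h
      have h1 := ih b c d (List.cons.inj h).2
      exact ⟨by rw [h1.1], h1.2⟩

private theorem one_val {α : Type} (x y : List α) (m n : ℕ) :
    (List.replicate m false ++ true :: List.replicate n false).flatMap
      (fun c => if c then x else y) = pow y m ++ x ++ pow y n := by
  rw [List.flatMap_append, List.flatMap_cons]
  simp only [List.flatMap_def, List.map_replicate, pow, if_true, Bool.false_eq_true, if_false,
    List.append_assoc]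

/-- one unknown: `y^a x y^b = y^c x y^d` -/
theorem one_unknown {α : Type} (a b c d : ℕ) (hne : ¬ (a = c ∧ b = d)) (x y : List α)
    (h : pow y a ++ x ++ pow y b = pow y c ++ x ++ pow y d) : x ++ y = y ++ x := by
  refine rel_comm x y (List.replicate a false ++ true :: List.replicate b false)
    (List.replicate c false ++ true :: List.replicate d false) (fun hh => hne (one_inj _ _ _ _ hh))
    ?_
  rw [one_val, one_val]
  exact h

end Pool.Agent.H70.WE
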