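import Pool.Agent.H70.WX.Cls
import Pool.Agent.H70.WE.Sharp

/-!
# MP_e8f906_co: decreasing chains of word equations in three unknowns, two sparse unknowns

The unknowns are `0, 1, 2 : Fin 3`, written `x, y, z`. If the first `r` equations of a decreasing chain imply a
nontrivial equation in which two of the unknowns occur at most once on each side, the chain has length at most
`r + 6`; so it has length at most `7` if its first equation is of this kind, and also if the first equation is
a nontrivial relation between two words `P, Q` (different as words when multiplied in the two orders) which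
together contain two of the unknowns at most once. The bound `7` is attained.
-/

set_option autoImplicit false

namespace Pool.Agent.H70.SparseStart

open Pool.Agent.H70.WE

theorem result :
    (∀ (α : Type) (n r : ℕ) (E : Fin n → List (Fin 3) × List (Fin 3)) (F : List (Fin 3) × List (Fin 3))
      (c d : Fin 3), Decreasing α n E → c ≠ d → F.1 ≠ F.2 → F.1.count c ≤ 1 → F.2.count c ≤ 1 →
      F.1.count d ≤ 1 → F.2.count d ≤ 1 →
      (∀ h : Fin 3 → List α, (∀ i : Fin n, i.val < r → Solves h (E i)) → Solves h F) → n ≤ r + 6) ∧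
    (∀ (α : Type) (n : ℕ) (P Q : List (Fin 3)) (c d : Fin 3) (U V : List Bool)
      (E : Fin (n + 1) → List (Fin 3) × List (Fin 3)), Decreasing α (n + 1) E → c ≠ d → P ++ Q ≠ Q ++ P →
      (P ++ Q).count c ≤ 1 → (P ++ Q).count d ≤ 1 → U ≠ V → E 0 = (subst P Q U, subst P Q V) → n + 1 ≤ 7) ∧
    ∃ E : Fin 7 → List (Fin 3) × List (Fin 3), E 0 = ([0, 1, 2], [2, 0, 1]) ∧ Decreasing ℕ 7 E :=
  ⟨fun _ _ _ _ F c d hE hcd hne h1 h2 h3 h4 hr => npb_bound (npb_class F c d hcd hne h1 h3 h2 h4) hE hr,
    fun _ _ _ _ _ _ _ _ _ hE hcd hPQ hc hd hUV h0 => rel_bound hE hcd hPQ hc hd hUV h0,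
    chain7, sharp7.1, sharp7.2⟩

end Pool.Agent.H70.SparseStart
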