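import Pool.Agent.H70.WX.CtA
import Pool.Agent.H70.WX.CtB

/-!
# [H70 WX TypC] The types of the solutions of `y^(e+D) x y^b z = z y^e x y^(b+D)`
-/

set_option autoImplicit false

namespace Pool.Agent.H70.WE

open Pool.Agent.H93.TW

variable {α : Type}

theorem solves_iff {h : Fin 3 → List α} {w : List α} {m k a b j i : ℤ}
    (h0 : io (h 0) = th (io w) (io (h 1)) (gz m k a b j i 0))
    (h2 : io (h 2) = th (io w) (io (h 1)) (gz m k a b j i 2))
    (hnc : io w * io (h 1) ≠ io (h 1) * io w) (E : List (Fin 3) × List (Fin 3)) :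
    Solves h E ↔ EqZ m k a b j i E := by
  have hc : ∀ c, io (h c) = th (io w) (io (h 1)) (gz m k a b j i c) := by
    intro c
    fin_cases c
    · exact h0
    · show io (h 1) = th (io w) (io (h 1)) gB
      rw [th_B]
    · exact h2
  have hv : ∀ U, io (val h U) = th (io w) (io (h 1)) (gzv m k a b j i U) := by
    intro U
    induction U with
    | nil =>
      show io ([] : List α) = th _ _ 1
      rw [map_one]
      rfl
    | cons c U ih =>
      have e1 : val h (c :: U) = h c ++ val h U := by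
        unfold val
        rw [List.flatMap_cons]
      have e2 : gzv m k a b j i (c :: U) = gz m k a b j i c * gzv m k a b j i U := by
        unfold gzv
        rw [List.map_cons, List.prod_cons]
      rw [e1, e2, io_append, map_mul, ih, hc c]
  unfold Solves EqZ
  constructor
  · intro he
    apply th_inj _ _ hnc
    rw [← hv, ← hv, he]
  · intro he
    apply io_inj
    rw [hv, hv, he]

/-- left side of the exceptional equation -/
def cU (e b D : ℕ) : List (Fin 3) :=
  List.replicate (e + D) 1 ++ ([0] ++ (List.replicate b 1 ++ [2]))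

/-- right side of the exceptional equation -/
def cV (e b D : ℕ) : List (Fin 3) :=
  [2] ++ (List.replicate e 1 ++ ([0] ++ List.replicate (b + D) 1))

theorem val_one (h : Fin 3 → List α) (c : Fin 3) : val h [c] = h c := by
  unfold val
  simp

theorem solves_c (h : Fin 3 → List α) (e b D : ℕ) : Solves h (cU e b D, cV e b D) ↔
    pow (h 1) (e + D) ++ h 0 ++ pow (h 1) b ++ h 2 = h 2 ++ pow (h 1) e ++ h 0 ++ pow (h 1) (b + D) := by
  unfold Solves cU cV
  simp only [val_append, val_replicate, val_one, List.append_assoc]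

/-- the admissible types -/
def AdmC (e b : ℕ) (j i : ℤ) : Prop :=
  0 < j ∧ IsCoprime j i ∧ (0 ≤ i ∨ (e = 0 ∧ b = 0 ∧ 2 ≤ j ∧ i = -1))

theorem per_iff (h : Fin 3 → List α) :
    (∃ w : List α, (∃ n, h 0 = pow w n) ∧ (∃ n, h 1 = pow w n) ∧ ∃ n, h 2 = pow w n) → Per h := by
  rintro ⟨w, ⟨n0, h0⟩, ⟨n1, h1⟩, ⟨n2, h2⟩⟩
  refine ⟨w, fun c => ?_⟩
  fin_cases c
  · exact ⟨n0, h0⟩
  · exact ⟨n1, h1⟩
  · exact ⟨n2, h2⟩

theorem typC (e b D : ℕ) (hD : 1 ≤ D) (hx : ¬ (e = 0 ∧ b = 0 ∧ D = 1)) (h : Fin 3 → List α)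
    (hn : ¬ Per h) (hs : Solves h (cU e b D, cV e b D)) :
    ∃ j i : ℤ, AdmC e b j i ∧
      ∀ E : List (Fin 3) × List (Fin 3), Solves h E ↔ EqZ ((e : ℤ) + D) b 0 (-(D : ℤ)) j i E := by
  rw [solves_c] at hs
  by_cases hl : (pow (h 1) D).length ≤ (h 2).length
  · obtain ⟨q, hq, hcq⟩ := ctA (h 0) (h 1) (h 2) e b D hs hl
    obtain ⟨w0, j0, i0, hP0, hQ0⟩ := comm_pow _ _ hcq
    change pow (h 1) (e + D) ++ h 0 ++ pow (h 1) b = pow w0 j0 at hP0
    change q = pow w0 i0 at hQ0
    -- a general fact: the root and `y` do not commute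
    have key : ∀ (w : List α) (j i : ℕ), pow (h 1) (e + D) ++ h 0 ++ pow (h 1) b = pow w j → q = pow w i →
        io w * io (h 1) ≠ io (h 1) * io w := by
      intro w j i hP hQ he
      rw [← io_append, ← io_append] at he
      have he2 := io_inj he
      obtain ⟨ρ, c, d, hc1, hd1⟩ := comm_pow _ _ he2
      change w = pow ρ c at hc1
      change h 1 = pow ρ d at hd1
      rw [hd1, hc1, ← pow_mul', ← pow_mul', ← pow_mul'] at hP
      obtain ⟨n1, hn1⟩ := mid_pow hP
      apply hn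
      apply per_iff
      refine ⟨ρ, ⟨n1, hn1⟩, ⟨d, hd1⟩, ⟨c * i + d * D, ?_⟩⟩
      rw [hq, hQ, hd1, hc1, ← pow_mul', ← pow_mul', pow_add']
    have hnc0 := key w0 j0 i0 hP0 hQ0
    have hy : h 1 ≠ [] := by
      intro h0
      apply hnc0
      rw [h0]
      show io w0 * 1 = 1 * io w0
      rw [mul_one, one_mul]
    have hj0 : 0 < j0 := by
      rcases Nat.eq_zero_or_pos j0 with h0 | h0
      · exfalso
        rw [h0, pow_zero'] at hP0
        have e2 := (List.append_eq_nil_iff.1 (List.append_eq_nil_iff.1 hP0).1).1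
        exact pow_ne_nil hy (by omega) e2
      · exact h0
    obtain ⟨g, j, i, hg, hco, hj, hi⟩ : ∃ g j i : ℕ, 0 < g ∧ Nat.Coprime j i ∧ j0 = g * j ∧ i0 = g * i := by
      have hgp : 0 < Nat.gcd j0 i0 := Nat.gcd_pos_of_pos_left _ hj0
      refine ⟨Nat.gcd j0 i0, j0 / Nat.gcd j0 i0, i0 / Nat.gcd j0 i0, hgp,
        Nat.coprime_div_gcd_div_gcd hgp, ?_, ?_⟩
      · exact (Nat.mul_div_cancel' (Nat.gcd_dvd_left j0 i0)).symm
      · exact (Nat.mul_div_cancel' (Nat.gcd_dvd_right j0 i0)).symm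
    have hjp : 0 < j := by
      rcases Nat.eq_zero_or_pos j with h0 | h0
      · rw [h0, Nat.mul_zero] at hj
        omega
      · exact h0
    have hP : pow (h 1) (e + D) ++ h 0 ++ pow (h 1) b = pow (pow w0 g) j := by rw [hP0, hj, pow_mul']
    have hQ : q = pow (pow w0 g) i := by rw [hQ0, hi, pow_mul']
    have hnc := key (pow w0 g) j i hP hQ
    refine ⟨j, i, ⟨by exact_mod_cast hjp, ?_, Or.inl (by positivity)⟩, solves_iff (w := pow w0 g) ?_ ?_ hnc⟩
    · exact Nat.isCoprime_iff_coprime.2 hco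
    · show io (h 0) = th _ _ (gB ^ (-((e : ℤ) + D)) * gA ^ (j : ℤ) * gB ^ (-(b : ℤ)))
      have hP1 := congrArg io hP
      rw [io_append, io_append, io_pow, io_pow, io_pow (pow w0 g)] at hP1
      rw [map_mul, map_mul, map_zpow, map_zpow, map_zpow, th_A, th_B, zpow_natCast, ← hP1]
      rw [zpow_neg, zpow_neg, zpow_natCast, show ((e : ℤ) + D) = ((e + D : ℕ) : ℤ) by push_cast; ring,
        zpow_natCast]
      group
    · show io (h 2) = th _ _ (gB ^ (-(0 : ℤ)) * gA ^ (i : ℤ) * gB ^ (-(-(D : ℤ))))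
      have h3 : io (h 2) = io (pow w0 g) ^ i * io (h 1) ^ D := by
        rw [← io_pow, ← io_pow, ← io_append, ← hQ, ← hq]
      rw [map_mul, map_mul, map_zpow, map_zpow, map_zpow, th_A, th_B, zpow_natCast, h3, neg_zero, zpow_zero,
        one_mul, neg_neg, zpow_natCast]
  · obtain ⟨he0, hb0, w, j, hj, hP, hz⟩ := ctB (h 0) (h 1) (h 2) e b D hx hs (by omega)
      (fun hcon => hn (per_iff h hcon))
    have hnc : io w * io (h 1) ≠ io (h 1) * io w := by
      intro he
      rw [← io_append, ← io_append] at he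
      have he2 := io_inj he
      obtain ⟨ρ, c, d, hc1, hd1⟩ := comm_pow _ _ he2
      change w = pow ρ c at hc1
      change h 1 = pow ρ d at hd1
      have e1 : pow ρ (d * D) ++ h 0 ++ pow ρ 0 = pow ρ (c * j) := by
        rw [pow_zero', List.append_nil, pow_mul', ← hd1, hP, hc1, pow_mul']
      have e2 : pow ρ c ++ h 2 ++ pow ρ 0 = pow ρ (d * D) := by
        rw [pow_zero', List.append_nil, ← hc1, hz, hd1, pow_mul']
      obtain ⟨n0, hn0⟩ := mid_pow e1
      obtain ⟨n2, hn2⟩ := mid_pow e2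
      exact hn (per_iff h ⟨ρ, ⟨n0, hn0⟩, ⟨d, hd1⟩, ⟨n2, hn2⟩⟩)
    subst he0 hb0
    refine ⟨j, -1, ⟨by omega, isCoprime_one_right.neg_right, Or.inr ⟨rfl, rfl, by exact_mod_cast hj, rfl⟩⟩,
      solves_iff (w := w) ?_ ?_ hnc⟩
    · show io (h 0) = th _ _ (gB ^ (-(((0 : ℕ) : ℤ) + D)) * gA ^ (j : ℤ) * gB ^ (-((0 : ℕ) : ℤ)))
      have hP1 := congrArg io hP
      rw [io_append, io_pow, io_pow] at hP1
      rw [map_mul, map_mul, map_zpow, map_zpow, map_zpow, th_A, th_B, zpow_natCast, ← hP1]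
      simp
    · show io (h 2) = th _ _ (gB ^ (-(0 : ℤ)) * gA ^ (-1 : ℤ) * gB ^ (-(-(D : ℤ))))
      have hz1 := congrArg io hz
      rw [io_append, io_pow] at hz1
      rw [map_mul, map_mul, map_zpow, map_zpow, map_zpow, th_A, th_B, neg_zero, zpow_zero,
        one_mul, neg_neg, zpow_natCast, ← hz1]
      simp

end Pool.Agent.H70.WE
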